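import Pool.Agent.H17LG.Base
import Pool.Agent.H17GT.ModEXT
import Pool.Agent.H17GT.ModDER

/-!
# Logarithmic extension of derivations and logarithmic coordinates at a prime divisor
-/

open Pool.Agent.H23 (RatForm regularForms PrimeDivisorOver dualDer dualDer_coord exists_int ev
  ev_injective aeval_cons exists_poly_of_basis exists_divisorCoords)
open Pool.Agent.H17GT

noncomputable section

namespace Pool.Agent.H17LG

variable {K : Type} [Field K] [Algebra ℂ K]

omit [Algebra ℂ K] in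
private lemma lreg_val_zpow (v : AddValuation K (WithTop ℤ)) {t : K} (ht : v t = 1) (n : ℤ) :
    v (t ^ n) = (n : WithTop ℤ) := by
  have h0 : ∀ m : ℕ, v (t ^ m) = ((m : ℤ) : WithTop ℤ) := by
    intro m
    rw [v.map_pow, ht]
    simp
  have ht0 : t ≠ 0 := by
    rintro rfl
    simp at ht
  obtain ⟨m, rfl | rfl⟩ := n.eq_nat_or_neg
  · rw [zpow_natCast]
    exact h0 m
  · have h1 : t ^ (-(m : ℤ)) * t ^ m = 1 := by
      rw [← zpow_natCast, ← zpow_add₀ ht0]
      simp
    have h2 : v (t ^ (-(m : ℤ))) + v (t ^ m) = 0 := by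
      rw [← v.map_mul, h1, v.map_one]
    obtain ⟨a, ha⟩ := exists_int v (zpow_ne_zero (-(m : ℤ)) ht0)
    rw [ha, h0] at h2
    rw [ha]
    have h3 : a + (m : ℤ) = 0 := by exact_mod_cast h2
    exact congrArg _ (by omega : a = -(m : ℤ))

omit [Algebra ℂ K] in
private lemma lreg_log (v : AddValuation K (WithTop ℤ)) {t : K} (ht : v t = 1)
    (D : Derivation ℤ K K) (h : ∀ f, 0 ≤ v f → 0 ≤ v (D f)) (hDt : 1 ≤ v (D t)) (f : K) :
    v f ≤ v (D f) := by
  have ht0 : t ≠ 0 := by
    rintro rfl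
    simp at ht
  by_cases hf : f = 0
  · rw [hf, D.map_zero]
  obtain ⟨μ, hμ⟩ := exists_int v hf
  have hfu : f = t ^ μ * (t ^ (-μ) * f) := by
    rw [← mul_assoc, ← zpow_add₀ ht0]
    simp
  obtain ⟨u, hu⟩ : ∃ u, u = t ^ (-μ) * f := ⟨_, rfl⟩
  rw [← hu] at hfu
  have hvu : v u = 0 := by
    rw [hu, v.map_mul, lreg_val_zpow v ht, hμ]
    have : ((-μ + μ : ℤ) : WithTop ℤ) = 0 := by
      rw [neg_add_cancel]
      rfl
    exact_mod_cast this
  have hD : D f = t ^ μ * D u + u * (μ * (t ^ (μ - 1) * D t)) := by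
    conv_lhs => rw [hfu]
    rw [D.leibniz, D.leibniz_zpow]
    simp only [smul_eq_mul, zsmul_eq_mul]
  rw [hD, hμ]
  apply v.map_le_add
  · rw [v.map_mul, lreg_val_zpow v ht]
    exact le_add_of_nonneg_right (h u (by rw [hvu]))
  · have hμ0 : 0 ≤ v ((μ : ℤ) : K) := by
      have h0 : ∀ m : ℕ, 0 ≤ v ((m : ℕ) : K) := by
        intro m
        induction m with
        | zero => simp
        | succ m ih =>
          push_cast
          exact v.map_le_add ih (by rw [v.map_one])
      obtain ⟨m, rfl | rfl⟩ := μ.eq_nat_or_neg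
      · simpa using h0 m
      · simpa using h0 m
    rw [v.map_mul u, hvu, v.map_mul, v.map_mul, lreg_val_zpow v ht, zero_add]
    have h1 : ((μ : ℤ) : WithTop ℤ) = ((μ - 1 : ℤ) : WithTop ℤ) + 1 := by
      have : (μ : ℤ) = (μ - 1) + 1 := by ring
      conv_lhs => rw [this]
      push_cast
      rfl
    rw [h1]
    exact le_trans (add_le_add le_rfl hDt) (le_add_of_nonneg_left hμ0)

theorem exists_ext_logRegular [Algebra.EssFiniteType ℂ K] {k : ℕ} {z : Fin (k + 1) → K}
    (hz : IsTranscendenceBasis ℂ z) (E : PrimeDivisorOver K (k + 1)) (D : Derivation ℤ ℂ ℂ) :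
    ∃ D' : Derivation ℤ K K, Ext D D' ∧ ∀ f, E.ord f ≤ E.ord (D' f) := by
  obtain ⟨t, ht⟩ := E.exists_uniformizer
  obtain ⟨s, hs0, hs⟩ := E.residue_trdeg
  change Fin k → K at s
  change ∀ i : Fin k, 0 ≤ E.ord (s i) at hs0
  change ∀ p : MvPolynomial (Fin k) ℂ, p ≠ 0 → E.ord (MvPolynomial.aeval s p) = 0 at hs
  set g : Fin (k + 1) → K := Fin.cons t s with hg
  have hind : AlgebraicIndependent ℂ g := by
    rw [algebraicIndependent_iff_injective_aeval]
    have h1 : (MvPolynomial.aeval g : MvPolynomial (Fin (k + 1)) ℂ → K) =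
        ev s t ∘ MvPolynomial.finSuccEquiv ℂ k := by
      funext p
      exact aeval_cons s t p
    rw [h1]
    exact (ev_injective E.ord hs ht).comp (MvPolynomial.finSuccEquiv ℂ k).injective
  have hbasis : IsTranscendenceBasis ℂ g := by
    apply hind.isTranscendenceBasis_of_trdeg_le_of_finite
    rw [← hz.cardinalMk_eq_trdeg]
  obtain ⟨D', hD', hv⟩ := exists_ext_values hind D 0
  refine ⟨D', hD', ?_⟩
  have hDt : D' t = 0 := by
    have := hv 0
    rwa [hg, Fin.cons_zero] at this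
  have hDs : ∀ i, D' (s i) = 0 := by
    intro i
    have := hv i.succ
    rwa [hg, Fin.cons_succ] at this
  apply lreg_log E.ord ht D'
  · apply der_nonneg_of_ext E.ord hs ht
    · intro f
      obtain ⟨F, h1, h2⟩ := exists_poly_of_basis hbasis f
      refine ⟨F.map (MvPolynomial.finSuccEquiv ℂ k).toRingEquiv.toRingHom, ?_, ?_⟩
      · rwa [Ne, Polynomial.map_eq_zero_iff]
        exact (MvPolynomial.finSuccEquiv ℂ k).injective
      · rw [Polynomial.eval₂_map]
        have h3 : (ev s t).comp (MvPolynomial.finSuccEquiv ℂ k).toRingEquiv.toRingHom =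
            (MvPolynomial.aeval g).toRingHom :=
          RingHom.ext fun p => (aeval_cons s t p).symm
        rw [h3]
        exact h2
    · intro c
      rw [hD' c]
      exact E.ord_const _
    · rw [hDt]
      simp
    · intro i
      rw [hDs]
      simp
  · rw [hDt]
    simp

theorem exists_logDivisorCoords [Algebra.EssFiniteType ℂ K] {k : ℕ} {z : Fin (k + 1) → K}
    (hz : IsTranscendenceBasis ℂ z) (E : PrimeDivisorOver K (k + 1)) :
    ∃ (g : Fin (k + 1) → K) (b : Module.Basis (Fin (k + 1)) K Ω[K⁄ℂ]),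
      (∀ i, b i = KaehlerDifferential.D ℂ K (g i)) ∧ E.ord (g 0) = 1 ∧ (∀ i, 0 ≤ E.ord (g i)) ∧
      (∀ i f, 0 ≤ E.ord f → 0 ≤ E.ord (dualDer b i f)) ∧
      (∀ i, i ≠ 0 → ∀ f, E.ord f ≤ E.ord (dualDer b i f)) ∧
      ∀ f, E.ord f ≤ E.ord (g 0 * dualDer b 0 f) := by
  obtain ⟨g, b, h1, h2, h3, h4⟩ := exists_divisorCoords hz E
  refine ⟨g, b, h1, h2, h3, h4, ?_, ?_⟩
  · intro i hi
    refine lreg_log E.ord h2 ((dualDer b i).restrictScalars ℤ) (h4 i) ?_
    change 1 ≤ E.ord (dualDer b i (g 0))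
    rw [dualDer_coord b h1, if_neg hi]
    simp
  · refine lreg_log E.ord h2 ((g 0 • dualDer b 0).restrictScalars ℤ) (fun f hf => ?_) ?_
    · change 0 ≤ E.ord (g 0 * dualDer b 0 f)
      rw [E.ord.map_mul, h2]
      exact add_nonneg (by norm_num) (h4 0 f hf)
    · change 1 ≤ E.ord (g 0 * dualDer b 0 (g 0))
      rw [dualDer_coord b h1, if_pos rfl, mul_one, h2]

end Pool.Agent.H17LG
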