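import Pool.Agent.H23.Fano
import Pool.Agent.H17GT.Defs

/-!
# Varieties of log general type, in terms of their function field

The definitions of `Pool.Agent.H17GT.Defs` and `Pool.Agent.H17LG.Defs` in terms of the definitions of
`Pool.Agent.H23.Fano` (rational forms `Form K k`, regular forms, prime divisors).
-/

open MvPolynomial
open Pool.Agent.H23.Fano (Form regularForms PrimeDivisorOver)
open Pool.Agent.H17GT (coordFun functionField)

noncomputable section

namespace Pool.Agent.H17LG.Variety

section FunctionField

variable {K : Type} [Field K] [Algebra ℂ K] {k : ℕ}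

/-- Let `K` be the function field of a variety of dimension `k`, let `ω` be a rational `k`-form and
`f ∈ K`. The rational `m`-canonical form `f ω^m` has a pole of order at most `p` along the prime
divisor `E`: one has `ω = g η` with `η` regular along `E` and `f g ^ m` has a pole of order at
most `p` along `E`. -/
def PoleAtMost (p : ℕ) (E : PrimeDivisorOver K k) (m : ℕ) (f : K) (ω : Form K k) : Prop :=
  ∃ (g : K) (η : Form K k), η ∈ regularForms k E.localRing ∧ ω = g • η ∧
    0 ≤ E.ord (f * g ^ m) + p

/-- Let `U` be a variety of dimension `k` with function field `K`, and let `B` be the set of the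
prime divisors over `K` whose centre lies in the boundary of a compactification of `U`. The variety
`U` is of log general type: for some `m ≥ 1` there are `m`-canonical forms `f₀ ω^m, …, f_r ω^m`,
regular along all prime divisors outside `B`, with poles of order at most `m` along the prime
divisors in `B`, which define a generically finite rational map, that is, `K` is algebraic over
`ℂ(f₁/f₀, …, f_r/f₀)`. -/
def IsLogGeneralType (B : PrimeDivisorOver K k → Prop) : Prop :=
  ∃ m : ℕ, 1 ≤ m ∧ ∃ ω : Form K k, ω ≠ 0 ∧ ∃ (r : ℕ) (f : Fin (r + 1) → K), f 0 ≠ 0 ∧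
    (∀ i E, (¬ B E → PoleAtMost 0 E m (f i) ω) ∧ (B E → PoleAtMost m E m (f i) ω)) ∧
    Algebra.IsAlgebraic (IntermediateField.adjoin ℂ (Set.range fun i => f i / f 0)) K

end FunctionField

section Subvariety

variable {N : ℕ} (P : Ideal (MvPolynomial (Fin (N + 1)) ℂ)) [P.IsPrime]

/-- The function field of the closed subvariety of `ℙ^N` given by `P`. -/
def FunField : Type := functionField P

instance : Field (FunField P) := (inferInstance : Field (functionField P))

instance : Algebra ℂ (FunField P) := (inferInstance : Algebra ℂ (functionField P))

/-- The function `x_i / x_j` on the subvariety of `ℙ^N` given by `P`. -/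
def ratio (i j : Fin (N + 1)) : FunField P :=
  (⟨coordFun P i / coordFun P j, IntermediateField.subset_adjoin _ _ ⟨i, j, rfl⟩⟩ :
    functionField P)

/-- The centre of the prime divisor `E` on the closed subvariety of `ℙ^N` given by `P` lies in the
union of the hypersurfaces `H m = 0`. -/
def OnBoundary {b : ℕ} (H : Fin b → MvPolynomial (Fin (N + 1)) ℂ) {k : ℕ}
    (E : PrimeDivisorOver (FunField P) k) : Prop :=
  ∃ j, coordFun P j ≠ 0 ∧ (∀ i, 0 ≤ E.ord (ratio P i j)) ∧
    ∃ m, 0 < E.ord (aeval (fun i => ratio P i j) (H m))

end Subvariety

/-- Every closed subvariety of dimension at least `k₀` of `X ∖ D` is of log general type, where `X`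
is the common zero locus of the forms `G l` in `ℙ^N` and `D` is the union of the hypersurfaces
`H m = 0`. Closed subvarieties of `X ∖ D` correspond to homogeneous prime ideals which contain the
forms `G l` but none of the `H m`, and their dimension is the transcendence degree of their
function field. -/
def AllLogGeneralType {N c b : ℕ} (G : Fin c → MvPolynomial (Fin (N + 1)) ℂ)
    (H : Fin b → MvPolynomial (Fin (N + 1)) ℂ) (k₀ : ℕ) : Prop :=
  ∀ (P : Ideal (MvPolynomial (Fin (N + 1)) ℂ)) [P.IsPrime],
    (∀ p ∈ P, ∀ n, homogeneousComponent n p ∈ P) → (∀ l, G l ∈ P) → (∀ m, H m ∉ P) → ∀ k, k₀ ≤ k →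
      (∃ z : Fin k → FunField P, IsTranscendenceBasis ℂ z) →
        IsLogGeneralType (OnBoundary P H (k := k))

end Pool.Agent.H17LG.Variety
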