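import Pool.Agent.H17LG.Defs
import Pool.Agent.H17GT.Base
import Pool.Agent.H79.Log.SmoothPair

/-!
# Subvarieties of generic pairs: notation
-/

open MvPolynomial
open Pool.Agent.H23 (RatForm regularForms PrimeDivisorOver)
open Pool.Agent.H17GT (Ext coefEval)
open Pool.Agent.H79.Log (subSys)

noncomputable section

namespace Pool.Agent.H17LG

variable {K : Type} [Field K] [Algebra ℂ K]

/-- The centre of `E` on the projective variety with generic point `x` lies in the union of the
hypersurfaces `H m = 0`. -/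
def OnBdry {N b k : ℕ} (x : Fin (N + 1) → K) (H : Fin b → MvPolynomial (Fin (N + 1)) ℂ)
    (E : PrimeDivisorOver K k) : Prop :=
  ∃ s : K, s ≠ 0 ∧ (∀ i, 0 ≤ E.ord (x i / s)) ∧ (∃ i, E.ord (x i / s) = 0) ∧
    ∃ m, 0 < E.ord (aeval (fun i => x i / s) (H m))

/-- `D'` is, up to the factor `s ^ w` and a derivation over `ℂ`, logarithmic along every prime
divisor along which all `x i / s` are regular, and its action on the coefficients of the forms
`H m` is tangent to `H m = 0`. -/
def LogGood {N b : ℕ} (k : ℕ) (x : Fin (N + 1) → K) (H : Fin b → MvPolynomial (Fin (N + 1)) ℂ)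
    (w : ℕ) (D' : Derivation ℤ K K) : Prop :=
  ∀ (E : PrimeDivisorOver K k) (s : K), s ≠ 0 → (∀ i, 0 ≤ E.ord (x i / s)) →
    ∃ (D'' : Derivation ℤ K K) (γ : Derivation ℂ K K),
      (∀ f, E.ord f ≤ E.ord (D'' f)) ∧
      (∀ m, E.ord (aeval (fun i => x i / s) (H m)) ≤
        E.ord (coefEval (fun a => D'' (algebraMap ℂ K a)) (fun i => x i / s) (H m))) ∧
      ∀ f, D' f = s ^ w * (D'' f + γ f)

/-- For every `S`, some power of every variable is in the ideal generated by the forms `G l`, the
forms `H m` with `m ∈ S` and by the maximal minors of their Jacobian matrix. -/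
def PairCertificate {N c b : ℕ} (G : Fin c → MvPolynomial (Fin (N + 1)) ℂ)
    (H : Fin b → MvPolynomial (Fin (N + 1)) ℂ) : Prop :=
  ∀ (S : Finset (Fin b)) (j : Fin (N + 1)),
    ∃ (M : ℕ) (A : Fin c ⊕ {m // m ∈ S} → MvPolynomial (Fin (N + 1)) ℂ)
      (B : (Fin c ⊕ {m // m ∈ S} → Fin (N + 1)) → MvPolynomial (Fin (N + 1)) ℂ),
      (X j) ^ M = ∑ l, A l * subSys S G H l +
        ∑ I, B I * Matrix.det (Matrix.of fun l m => pderiv (I m) (subSys S G H l))

end Pool.Agent.H17LG
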