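import Pool.Agent.H17GT.Defs

/-!
# Varieties of log general type, in terms of their function field
-/

open MvPolynomial
open Pool.Agent.H23 (RatForm regularForms PrimeDivisorOver)
open Pool.Agent.H17GT (RegularAlong coordFun functionField)

noncomputable section

namespace Pool.Agent.H17LG

section FunctionField

variable {K : Type} [Field K] [Algebra ℂ K] {k : ℕ}

/-- The rational `m`-canonical form `f ω^m` has at most logarithmic poles along the prime divisor
`E`: one has `ω = g η` with `η` regular along `E` and `f g ^ m` has a pole of order at most `m`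
along `E`. -/
def LogRegularAlong (E : PrimeDivisorOver K k) (m : ℕ) (f : K) (ω : RatForm K k) : Prop :=
  ∃ (g : K) (η : RatForm K k), η ∈ regularForms k E.localRing ∧ ω = g • η ∧
    0 ≤ E.ord (f * g ^ m) + m

/-- Let `U` be a variety of dimension `k` with function field `K`, and let `B` be the set of the
prime divisors over `K` whose centre lies in the boundary of a compactification of `U`. The variety
`U` is of log general type: for some `m ≥ 1` there are `m`-canonical forms `f₀ ω^m, …, f_r ω^m`,
regular along all prime divisors outside `B`, with at most logarithmic poles along the prime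
divisors in `B`, which define a generically finite rational map. -/
def IsLogGeneralType (B : PrimeDivisorOver K k → Prop) : Prop :=
  ∃ m : ℕ, 1 ≤ m ∧ ∃ ω : RatForm K k, ω ≠ 0 ∧ ∃ (r : ℕ) (f : Fin (r + 1) → K), f 0 ≠ 0 ∧
    (∀ i, ∀ E : PrimeDivisorOver K k, (¬ B E → RegularAlong E m (f i) ω) ∧
      (B E → LogRegularAlong E m (f i) ω)) ∧
    Algebra.IsAlgebraic (IntermediateField.adjoin ℂ (Set.range fun i => f i / f 0)) K

end FunctionField

/-- The function `x_i / x_j` on the subvariety of `ℙ^N` given by `P`. -/
def ratio {N : ℕ} (P : Ideal (MvPolynomial (Fin (N + 1)) ℂ)) [P.IsPrime] (i j : Fin (N + 1)) :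
    functionField P :=
  ⟨coordFun P i / coordFun P j, IntermediateField.subset_adjoin _ _ ⟨i, j, rfl⟩⟩

/-- The centre of the prime divisor `E` on the closed subvariety of `ℙ^N` given by `P` lies in the
union of the hypersurfaces `H m = 0`. -/
def OnBoundary {N b : ℕ} (P : Ideal (MvPolynomial (Fin (N + 1)) ℂ)) [P.IsPrime]
    (H : Fin b → MvPolynomial (Fin (N + 1)) ℂ) {k : ℕ}
    (E : PrimeDivisorOver (functionField P) k) : Prop :=
  ∃ j, coordFun P j ≠ 0 ∧ (∀ i, 0 ≤ E.ord (ratio P i j)) ∧
    ∃ m, 0 < E.ord (aeval (fun i => ratio P i j) (H m))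

/-- Every closed subvariety of dimension at least `k₀` of `X ∖ D` is of log general type, where `X`
is the common zero locus of the forms `G l` in `ℙ^N` and `D` is the union of the hypersurfaces
`H m = 0`. -/
def AllLogGeneralType {N c b : ℕ} (G : Fin c → MvPolynomial (Fin (N + 1)) ℂ)
    (H : Fin b → MvPolynomial (Fin (N + 1)) ℂ) (k₀ : ℕ) : Prop :=
  ∀ (P : Ideal (MvPolynomial (Fin (N + 1)) ℂ)) [P.IsPrime],
    (∀ p ∈ P, ∀ n, homogeneousComponent n p ∈ P) → (∀ l, G l ∈ P) → (∀ m, H m ∉ P) → ∀ k, k₀ ≤ k →
      (∃ z : Fin k → functionField P, IsTranscendenceBasis ℂ z) →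
        IsLogGeneralType (OnBoundary P H (k := k))

end Pool.Agent.H17LG
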