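import Pool.Agent.H17LG.Base

/-!
# The certificate of smoothness of all strata
-/

open MvPolynomial
open Pool.Agent.H79.Log (SmoothPair SmoothFam subSys smoothPair_iff)

noncomputable section

namespace Pool.Agent.H17LG

/-- A matrix with independent rows has a nonzero maximal minor. -/
private lemma lcert_exists_minor {κ : Type} [Fintype κ] [DecidableEq κ] {M : ℕ}
    (v : κ → Fin M → ℂ) (hv : LinearIndependent ℂ v) :
    ∃ I : κ → Fin M, Matrix.det (Matrix.of fun l m => v l (I m)) ≠ 0 := by
  classical
  set A : Matrix κ (Fin M) ℂ := Matrix.of v with hA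
  have hrank : A.rank = Fintype.card κ := by
    have h1 := LinearIndependent.rank_matrix (M := A) hv
    simpa using h1
  have hspan : Submodule.span ℂ (Set.range A.col) = ⊤ := by
    apply Submodule.eq_top_of_finrank_eq
    rw [← Matrix.rank_eq_finrank_span_cols, hrank]
    simp
  obtain ⟨ι, a, ha, hsp, hli⟩ := exists_linearIndependent' ℂ A.col
  rw [hspan] at hsp
  let b := Module.Basis.mk hli hsp.ge
  have : Fintype ι := FiniteDimensional.fintypeBasisIndex b
  have hcard : Fintype.card κ = Fintype.card ι := by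
    have h1 := Module.finrank_eq_card_basis b
    simpa using h1
  let e : κ ≃ ι := Fintype.equivOfCardEq hcard
  refine ⟨a ∘ e, ?_⟩
  have h2 : LinearIndependent ℂ (fun m => A.col (a (e m))) := hli.comp e e.injective
  have h3 : LinearIndependent ℂ (Matrix.of fun l m => v l ((a ∘ e) m)).col := h2
  rw [Matrix.linearIndependent_cols_iff_isUnit] at h3
  exact ((Matrix.isUnit_iff_isUnit_det _).mp h3).ne_zero

private lemma lcert_of_smoothFam {N : ℕ} {κ : Type} [Fintype κ] [DecidableEq κ]
    {F : κ → MvPolynomial (Fin (N + 1)) ℂ} (hsm : SmoothFam F) (j : Fin (N + 1)) :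
    ∃ (M : ℕ) (A : κ → MvPolynomial (Fin (N + 1)) ℂ)
      (B : (κ → Fin (N + 1)) → MvPolynomial (Fin (N + 1)) ℂ),
      (X j) ^ M = ∑ l, A l * F l +
        ∑ I, B I * Matrix.det (Matrix.of fun l m => pderiv (I m) (F l)) := by
  classical
  set Φ : κ ⊕ (κ → Fin (N + 1)) → MvPolynomial (Fin (N + 1)) ℂ :=
    Sum.elim F fun I => Matrix.det (Matrix.of fun l m => pderiv (I m) (F l)) with hΦ
  have h1 : X j ∈ (Ideal.span (Set.range Φ)).radical := by
    rw [← MvPolynomial.vanishingIdeal_zeroLocus_eq_radical (k := ℂ) (K := ℂ)]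
    rw [MvPolynomial.mem_vanishingIdeal_iff]
    intro x hx
    rw [MvPolynomial.mem_zeroLocus_iff] at hx
    have hx0 : x = 0 := by
      by_contra hne
      have hv : ∀ l, eval x (F l) = 0 := fun l => by
        have h3 := hx (F l) (Ideal.subset_span ⟨Sum.inl l, rfl⟩)
        simpa [MvPolynomial.aeval_eq_eval] using h3
      have h2 : LinearIndependent ℂ (fun l j => eval x (pderiv j (F l))) := by
        rw [Fintype.linearIndependent_iff]
        intro α hα l
        have h3 := hsm x hne hv α fun j => by
          have h4 := congrFun hα j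
          simpa [Finset.sum_apply] using h4
        exact congrFun h3 l
      obtain ⟨I, hI⟩ := lcert_exists_minor _ h2
      apply hI
      have h4 := hx (Φ (Sum.inr I)) (Ideal.subset_span ⟨Sum.inr I, rfl⟩)
      simp only [hΦ, Sum.elim_inr] at h4
      rw [AlgHom.map_det] at h4
      rw [← h4]
      congr 1
    simp [hx0]
  obtain ⟨M, hM⟩ := h1
  rw [Ideal.mem_span_range_iff_exists_fun] at hM
  obtain ⟨a, ha⟩ := hM
  refine ⟨M, fun l => a (Sum.inl l), fun I => a (Sum.inr I), ?_⟩
  rw [← ha, Fintype.sum_sum_type]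
  rfl

theorem pairCertificate_of_smoothPair {N c b : ℕ} {G : Fin c → MvPolynomial (Fin (N + 1)) ℂ}
    {H : Fin b → MvPolynomial (Fin (N + 1)) ℂ} (hsm : SmoothPair G H) : PairCertificate G H := by
  intro S j
  exact lcert_of_smoothFam (smoothPair_iff.mp hsm S) j

end Pool.Agent.H17LG
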