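import Pool.Agent.H17LG.Base
import Pool.Agent.H17GT.ModFORM

/-!
# Regularity of the canonical form outside the boundary
-/

open MvPolynomial
open Pool.Agent.H23 (RatForm regularForms PrimeDivisorOver dualDer)
open Pool.Agent.H17GT
open Pool.Agent.H79.Log (SmoothPair subSys)

noncomputable section

namespace Pool.Agent.H17LG

variable {K : Type} [Field K] [Algebra ℂ K]

lemma certificate_of_pair {N c b : ℕ} {G : Fin c → MvPolynomial (Fin (N + 1)) ℂ}
    {H : Fin b → MvPolynomial (Fin (N + 1)) ℂ} (hcert : PairCertificate G H) : Certificate G := by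
  intro j
  obtain ⟨M, A, B, h⟩ := hcert ∅ j
  let e : Fin c ⊕ {m : Fin b // m ∈ (∅ : Finset (Fin b))} ≃ Fin c := Equiv.sumEmpty _ _
  refine ⟨M, fun l => A (Sum.inl l), fun I => B (fun i => I (e i)), ?_⟩
  rw [h, Fintype.sum_sum_type]
  congr 1
  · rw [show (∑ l : {m : Fin b // m ∈ (∅ : Finset (Fin b))},
      A (Sum.inr l) * subSys ∅ G H (Sum.inr l)) = 0 from Finset.sum_of_isEmpty _, add_zero]
    rfl
  · refine (Fintype.sum_equiv (Equiv.arrowCongr e.symm (Equiv.refl _)) _ _ fun I => ?_).symm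
    have h1 : (Equiv.arrowCongr e.symm (Equiv.refl (Fin (N + 1)))) I = fun i => I (e i) := by
      funext i
      rfl
    rw [h1]
    congr 1
    rw [← Matrix.det_submatrix_equiv_self e]
    congr 1
    refine Matrix.ext fun a a' => ?_
    rcases a with a | a
    · rfl
    · exact absurd a.2 (Finset.notMem_empty _)

open FormX in
theorem regular_of_not_onBdry {N c b k r : ℕ} {d : Fin c → ℕ} {δ : Fin b → ℕ} (hd : ∀ l, 1 ≤ d l)
    {G : Fin c → MvPolynomial (Fin (N + 1)) ℂ} {H : Fin b → MvPolynomial (Fin (N + 1)) ℂ}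
    (hG : ∀ l, (G l).IsHomogeneous (d l)) (hH : ∀ m, (H m).IsHomogeneous (δ m))
    (hcert : PairCertificate G H) {x : Fin (N + 1) → K} (hx : x ≠ 0)
    (hGx : ∀ l, aeval x (G l) = 0) (hHx : ∀ m, aeval x (H m) ≠ 0)
    (w : Fin r → ℕ) (D' : Fin r → Derivation ℤ K K)
    (hgood : ∀ i, LogGood (k + 1) x H (w i) (D' i))
    (hker : ∀ i, jac G x (fun j => D' i (x j)) = 0)
    (e : (Unit ⊕ (Fin r ⊕ Fin (k + 1))) ⊕ Fin c ≃ Fin (N + 1))
    (hcard : 1 + r + (k + 1) + c = N + 1) {n : ℕ}
    (hdeg : N + 1 + ∑ i, w i + (n + 1) = ∑ l, d l + ∑ m, δ m)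
    (ν₀ : Fin c → Fin (N + 1) → K)
    (hν₀ : Matrix.det (Matrix.of fun a b => jac G x (ν₀ a) b) ≠ 0)
    (E : PrimeDivisorOver K (k + 1)) {g : Fin (k + 1) → K}
    (β : Module.Basis (Fin (k + 1)) K Ω[K⁄ℂ]) (hβ : ∀ i, β i = KaehlerDifferential.D ℂ K (g i))
    (hη : ∀ i f, 0 ≤ E.ord f → 0 ≤ E.ord (dualDer β i f))
    (hE : ¬ OnBdry x H E) (i₀ j₀ : Fin (N + 1)) :
    0 ≤ E.ord ((x i₀ * x j₀ ^ n) * (rdet e (Sum.elim (fam x D' (dualDer β)) ν₀) /
      (Matrix.det (Matrix.of fun a b => jac G x (ν₀ a) b) * ∏ m, aeval x (H m)))) := by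
  obtain ⟨j₁, -, hj₁⟩ := Finset.exists_min_image (Finset.univ : Finset (Fin (N + 1)))
    (fun j => E.ord (x j)) Finset.univ_nonempty
  set s := x j₁ with hs
  have hs0 : s ≠ 0 := by
    intro h0
    apply hx
    funext j
    have h1 := hj₁ j (Finset.mem_univ j)
    rw [h0, AddValuation.map_zero, top_le_iff] at h1
    exact (AddValuation.top_iff E.ord).1 h1
  set y : Fin (N + 1) → K := fun i => x i / s with hy
  have hxy : x = fun i => s * y i := by
    funext i
    rw [hy]
    field_simp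
  have hyO : ∀ i, 0 ≤ E.ord (x i / s) := by
    intro i
    have h1 := hj₁ i (Finset.mem_univ i)
    by_contra h2
    push Not at h2
    have h3 : E.ord (x i) = E.ord (x i / s) + E.ord s := by
      rw [← AddValuation.map_mul, div_mul_cancel₀ _ hs0]
    have h4 : E.ord s ≠ ⊤ := (AddValuation.ne_top_iff E.ord).2 hs0
    have h5 : E.ord (x i / s) + E.ord s < 0 + E.ord s := WithTop.add_lt_add_right h4 h2
    rw [← h3, zero_add] at h5
    exact absurd h1 (not_le.2 h5)
  have hgood' : ∀ i, Good (k + 1) x (w i) (D' i) := by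
    intro i E' s' hs' hy'
    obtain ⟨D₁, γ₁, h1, -, h2⟩ := hgood i E' s' hs' hy'
    exact ⟨D₁, γ₁, fun f hf => hf.trans (h1 f), h2⟩
  choose D'' γ hD'' hγ using fun i => hgood' i E s hs0 hyO
  have hGy : ∀ l, aeval y (G l) = 0 := by
    intro l
    have h1 := hGx l
    rw [hxy, aeval_scale (hG l)] at h1
    exact (mul_eq_zero.1 h1).resolve_left (pow_ne_zero _ hs0)
  have hyj : y j₁ = 1 := by
    rw [hy]
    exact div_self hs0
  -- the forms `H m` are units at the centre of `E`
  have hHy : ∀ m, E.ord (aeval y (H m)) = 0 := by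
    intro m
    have h1 : 0 ≤ E.ord (aeval y (H m)) := aeval_mem E.localRing hyO (H m)
    refine le_antisymm ?_ h1
    by_contra h2
    push Not at h2
    exact hE ⟨s, hs0, hyO, ⟨j₁, by
      rw [show x j₁ / s = 1 from div_self hs0, AddValuation.map_one]⟩, m, h2⟩
  set Q : K := ∏ m, aeval y (H m) with hQdef
  have hQord : E.ord Q = 0 := by
    rw [hQdef]
    have : ∀ S : Finset (Fin b), E.ord (∏ m ∈ S, aeval y (H m)) = 0 := by
      intro S
      induction S using Finset.induction_on with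
      | empty => rw [Finset.prod_empty, AddValuation.map_one]
      | insert a S ha ih => rw [Finset.prod_insert ha, AddValuation.map_mul, ih, hHy, add_zero]
    exact this _
  have hQ0 : Q ≠ 0 := by
    intro h0
    rw [h0, AddValuation.map_zero] at hQord
    exact absurd hQord (by simp)
  have hHx' : ∏ m, aeval x (H m) = s ^ (∑ m, δ m) * Q := by
    rw [hQdef, ← Finset.prod_pow_eq_pow_sum, ← Finset.prod_mul_distrib]
    refine Finset.prod_congr rfl fun m _ => ?_
    conv_lhs => rw [hxy]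
    exact aeval_scale (hH m) s y
  obtain ⟨I, hI⟩ := exists_unit_minor (certificate_of_pair hcert) hGy E hyO j₁ hyj
  set ν : Fin c → Fin (N + 1) → K := fun a => Pi.single (I a) 1 with hν
  have hm0 : minor G y I ≠ 0 := by
    intro h0
    rw [h0, AddValuation.map_zero] at hI
    exact absurd hI (by simp)
  -- the determinant of the Jacobian
  have hJν : Matrix.det (Matrix.of fun a b => jac G x (ν a) b) =
      s ^ (∑ l, (d l - 1)) * minor G y I := by
    have h1 : (Matrix.of fun a b => jac G x (ν a) b) =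
        Matrix.of fun a b => s ^ (d b - 1) * (Matrix.of fun a b => jac G y (ν a) b) a b := by
      ext a b
      rw [Matrix.of_apply, Matrix.of_apply, Matrix.of_apply]
      conv_lhs => rw [hxy]
      exact jac_scale hG s y (ν a) b
    rw [h1, Matrix.det_mul_row, Finset.prod_pow_eq_pow_sum]
    rfl
  have hJν0 : Matrix.det (Matrix.of fun a b => jac G x (ν a) b) ≠ 0 := by
    rw [hJν]
    exact mul_ne_zero (pow_ne_zero _ hs0) hm0
  have hdet := det_mul_det e (jac G x) (fam x D' (dualDer β)) (by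
    rintro (u | i | i)
    · exact jac_self hG hGx
    · exact hker i
    · exact jac_der hGx (dualDer β i)) ν₀ ν
  have hscale : rdet e (Sum.elim (fam x D' (dualDer β)) ν) =
      s ^ (1 + ∑ i, (w i + 1) + (k + 1)) * rdet e (Sum.elim (fam y D'' (dualDer β)) ν) := by
    conv_lhs => rw [hxy]
    apply rdet_scale e s y D' D'' (dualDer β) ν w (fun i j => γ i (g j))
    intro i f
    rw [hγ i f, der_eq_sum β hβ (γ i) f]
  have hexp : (n + 1) + (1 + ∑ i, (w i + 1) + (k + 1)) = ∑ l, (d l - 1) + ∑ m, δ m := by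
    have h1 : ∑ l, (d l - 1) + c = ∑ l, d l := by
      have : ∑ l, d l = ∑ l, ((d l - 1) + 1) := Finset.sum_congr rfl fun l _ => by
        have := hd l
        omega
      rw [this, Finset.sum_add_distrib, Finset.sum_const, Finset.card_univ, Fintype.card_fin,
        smul_eq_mul, mul_one]
    have h2 : ∑ i, (w i + 1) = ∑ i, w i + r := by
      rw [Finset.sum_add_distrib, Finset.sum_const, Finset.card_univ, Fintype.card_fin,
        smul_eq_mul, mul_one]
    omega
  have hmain : (x i₀ * x j₀ ^ n) * (rdet e (Sum.elim (fam x D' (dualDer β)) ν₀) /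
      (Matrix.det (Matrix.of fun a b => jac G x (ν₀ a) b) * ∏ m, aeval x (H m))) =
      (y i₀ * y j₀ ^ n) * (rdet e (Sum.elim (fam y D'' (dualDer β)) ν) *
        (minor G y I * Q)⁻¹) := by
    have h1 : rdet e (Sum.elim (fam x D' (dualDer β)) ν₀) /
        (Matrix.det (Matrix.of fun a b => jac G x (ν₀ a) b) * ∏ m, aeval x (H m)) =
        rdet e (Sum.elim (fam x D' (dualDer β)) ν) /
        (Matrix.det (Matrix.of fun a b => jac G x (ν a) b) * ∏ m, aeval x (H m)) := by
      rw [← div_div, ← div_div]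
      congr 1
      rw [div_eq_div_iff hν₀ hJν0]
      exact hdet
    rw [h1, hscale, hJν, hHx']
    have h2 : x i₀ = s * y i₀ := congrFun hxy i₀
    have h3 : x j₀ = s * y j₀ := congrFun hxy j₀
    have h4 : s ^ (∑ l, (d l - 1)) * minor G y I * (s ^ (∑ m, δ m) * Q) =
        s ^ ((n + 1) + (1 + ∑ i, (w i + 1) + (k + 1))) * (minor G y I * Q) := by
      rw [hexp, pow_add]
      ring
    rw [h4, h2, h3]
    exact alg_id s (y i₀) (y j₀) _ _ n _ hs0 (mul_ne_zero hm0 hQ0)
  rw [hmain]
  have hO : ∀ i, y i ∈ E.localRing := hyO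
  change _ ∈ E.localRing
  refine E.localRing.mul_mem (E.localRing.mul_mem (hO _) (E.localRing.pow_mem (hO _) n))
    (E.localRing.mul_mem ?_ ?_)
  · apply H23.det_mem
    intro i j
    rw [Matrix.of_apply]
    rcases e.symm i with (u | i | i) | m
    · exact hO j
    · exact hD'' i _ (hO j)
    · exact hη i _ (hO j)
    · change (Pi.single (I m) 1 : Fin (N + 1) → K) j ∈ E.localRing
      rw [Pi.single_apply]
      split_ifs
      · exact E.localRing.one_mem
      · exact E.localRing.zero_mem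
  · change 0 ≤ E.ord _
    have h5 : E.ord (minor G y I * Q) = 0 := by
      rw [AddValuation.map_mul, hI, hQord, add_zero]
    rw [H23.val_inv E.ord h5]

end Pool.Agent.H17LG
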