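import Pool.Agent.H17LG.Base
import Pool.Agent.H17GT.ModTRANS
import Pool.Agent.H17GT.ModFORM

open MvPolynomial
open Pool.Agent.H23 (RatForm regularForms PrimeDivisorOver dualDer)
open Pool.Agent.H17GT
open Pool.Agent.H79.Log (SmoothPair subSys)

noncomputable section

namespace Pool.Agent.H17LG

variable {K : Type} [Field K] [Algebra ℂ K]

/-- Block identity: `T` are vectors in the kernel of `J`, `ν` further vectors, `J'` further linear
forms, `ρ` some coordinates. -/
theorem det_mul_det_block {F : Type*} [Field F] {τ γ μ π σ : Type*} [Fintype τ] [Fintype γ]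
    [Fintype μ] [Fintype π] [Fintype σ] [DecidableEq τ] [DecidableEq γ] [DecidableEq μ]
    [DecidableEq π] [DecidableEq σ] (e : τ ⊕ γ ≃ σ) (e' : π ⊕ μ ≃ τ)
    (J : Matrix γ σ F) (J' : Matrix μ σ F) (ρ : π → σ) (t : τ → σ → F) (ht : ∀ i, J.mulVec (t i) = 0)
    (ν : γ → σ → F) :
    Matrix.det (Matrix.of fun i j => Sum.elim t ν (e.symm i) j) *
        Matrix.det (Matrix.of fun i j => Sum.elim (fun i =>
          Sum.elim (fun p => (Pi.single (ρ p) 1 : σ → F)) J' (e'.symm i)) J (e.symm i) j) =
      Matrix.det (Matrix.of fun i i' => Sum.elim (fun p => t i (ρ p)) (fun m => J'.mulVec (t i) m)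
        (e'.symm i')) * Matrix.det (Matrix.of fun a b => J.mulVec (ν a) b) := by
  rw [← Matrix.det_transpose (Matrix.of fun i j => Sum.elim (fun i =>
          Sum.elim (fun p => (Pi.single (ρ p) 1 : σ → F)) J' (e'.symm i)) J (e.symm i) j),
    ← Matrix.det_mul, ← Matrix.det_submatrix_equiv_self e, ← Matrix.det_fromBlocks_zero₁₂ _
      (Matrix.of fun (g : γ) (b : τ) => Sum.elim (fun p => ν g (ρ p))
        (fun m => J'.mulVec (ν g) m) (e'.symm b))]
  congr 1
  ext i i'
  rw [Matrix.submatrix_apply, Matrix.mul_apply]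
  simp only [Matrix.of_apply, Matrix.transpose_apply, Equiv.symm_apply_apply]
  have key : ∀ (v : σ → F) (b : τ), ∑ j, v j * Sum.elim (fun p => (Pi.single (ρ p) 1 : σ → F)) J'
      (e'.symm b) j = Sum.elim (fun p => v (ρ p)) (fun m => J'.mulVec v m) (e'.symm b) := by
    intro v b
    rcases e'.symm b with p | m
    · simp [Pi.single_apply]
    · simp only [Sum.elim_inr, Matrix.mulVec, dotProduct]
      exact Finset.sum_congr rfl fun j _ => mul_comm _ _
  have key2 : ∀ (v : σ → F) (g : γ), ∑ j, v j * J g j = J.mulVec v g := by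
    intro v g
    simp only [Matrix.mulVec, dotProduct]
    exact Finset.sum_congr rfl fun j _ => mul_comm _ _
  rcases i with a | g <;> rcases i' with b | g'
  · simp only [Sum.elim_inl, Matrix.fromBlocks_apply₁₁, Matrix.of_apply]
    exact key (t a) b
  · simp only [Sum.elim_inl, Sum.elim_inr, Matrix.fromBlocks_apply₁₂, Matrix.zero_apply]
    rw [key2, ht]
    rfl
  · simp only [Sum.elim_inl, Sum.elim_inr, Matrix.fromBlocks_apply₂₁, Matrix.of_apply]
    exact key (ν g) b
  · simp only [Sum.elim_inr, Matrix.fromBlocks_apply₂₂, Matrix.of_apply]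
    exact key2 (ν g) g'

/-- A unit minor of the Jacobian of the forms vanishing at the centre of `E`. -/
theorem exists_unit_minor_pair {N c b k : ℕ} {G : Fin c → MvPolynomial (Fin (N + 1)) ℂ}
    {H : Fin b → MvPolynomial (Fin (N + 1)) ℂ} (hcert : PairCertificate G H)
    {y : Fin (N + 1) → K} (hGy : ∀ l, aeval y (G l) = 0) (E : PrimeDivisorOver K (k + 1))
    (hy : ∀ i, 0 ≤ E.ord (y i)) (j : Fin (N + 1)) (hj : y j = 1) (S : Finset (Fin b))
    (hS : ∀ m ∈ S, 0 < E.ord (aeval y (H m))) :
    ∃ I : Fin c ⊕ {m // m ∈ S} → Fin (N + 1),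
      E.ord (Matrix.det (Matrix.of fun l m => aeval y (pderiv (I m) (subSys S G H l)))) = 0 := by
  obtain ⟨M, A, B, h0⟩ := hcert S j
  have h := congrArg (aeval y) h0
  rw [map_pow, aeval_X, hj, one_pow, map_add, map_sum, map_sum] at h
  by_contra hcon
  push Not at hcon
  have hO : ∀ P : MvPolynomial (Fin (N + 1)) ℂ, 0 ≤ E.ord (aeval y P) := fun P =>
    FormX.aeval_mem E.localRing hy P
  have hdet : ∀ I : Fin c ⊕ {m // m ∈ S} → Fin (N + 1),
      aeval y (Matrix.det (Matrix.of fun l m => pderiv (I m) (subSys S G H l))) =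
        Matrix.det (Matrix.of fun l m => aeval y (pderiv (I m) (subSys S G H l))) := by
    intro I
    rw [AlgHom.map_det]
    rfl
  have h1 : ∀ l ∈ (Finset.univ : Finset (Fin c ⊕ {m // m ∈ S})),
      (0 : WithTop ℤ) < E.ord (aeval y (A l * subSys S G H l)) := by
    intro l _
    rw [map_mul, AddValuation.map_mul]
    have h2 : 0 < E.ord (aeval y (subSys S G H l)) := by
      rcases l with l | m
      · show 0 < E.ord (aeval y (G l))
        rw [hGy l, AddValuation.map_zero]
        simp
      · exact hS m.1 m.2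
    exact lt_of_lt_of_le h2 (le_add_of_nonneg_left (hO _))
  have h2 : ∀ I ∈ (Finset.univ : Finset (Fin c ⊕ {m // m ∈ S} → Fin (N + 1))),
      (0 : WithTop ℤ) < E.ord (aeval y (B I *
        Matrix.det (Matrix.of fun l m => pderiv (I m) (subSys S G H l)))) := by
    intro I _
    rw [map_mul, AddValuation.map_mul]
    have h2 : 0 < E.ord (aeval y
        (Matrix.det (Matrix.of fun l m => pderiv (I m) (subSys S G H l)))) := by
      refine lt_of_le_of_ne (hO _) ?_
      rw [hdet]
      exact (hcon I).symm
    exact lt_of_lt_of_le h2 (le_add_of_nonneg_left (hO _))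
  have h3 := AddValuation.map_lt_sum E.ord (g := 0) (by simp) h1
  have h4 := AddValuation.map_lt_sum E.ord (g := 0) (by simp) h2
  have h5 := AddValuation.map_add E.ord
    (∑ l, aeval y (A l * subSys S G H l))
    (∑ I, aeval y (B I * Matrix.det (Matrix.of fun l m => pderiv (I m) (subSys S G H l))))
  rw [← h, AddValuation.map_one] at h5
  exact absurd (lt_of_lt_of_le (lt_min h3 h4) h5) (lt_irrefl _)

/-- Completion of a nonzero minor by coordinate vectors. -/
theorem exists_completion {F : Type*} [Field F] {κ π σ : Type*} [Fintype κ] [Fintype π] [Fintype σ]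
    [DecidableEq κ] [DecidableEq π] [DecidableEq σ] (A : κ → σ → F) (I : κ → σ)
    (hI : Matrix.det (Matrix.of fun l m => A l (I m)) ≠ 0)
    (hcard : Fintype.card π + Fintype.card κ = Fintype.card σ) :
    ∃ ρ : π → σ, ∀ e : π ⊕ κ ≃ σ,
      Matrix.det (Matrix.of fun i j =>
        Sum.elim (fun p => (Pi.single (ρ p) 1 : σ → F)) A (e.symm i) j) =
          Matrix.det (Matrix.of fun l m => A l (I m)) ∨
      Matrix.det (Matrix.of fun i j =>
        Sum.elim (fun p => (Pi.single (ρ p) 1 : σ → F)) A (e.symm i) j) =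
          - Matrix.det (Matrix.of fun l m => A l (I m)) := by
  classical
  have hinj : Function.Injective I := by
    intro m m' hmm
    by_contra hne
    apply hI
    exact Matrix.det_zero_of_column_eq hne fun l => by
      rw [Matrix.of_apply, Matrix.of_apply, hmm]
  have hc : Fintype.card π = Fintype.card {s : σ // s ∉ Set.range I} := by
    have h1 : Fintype.card {s : σ // s ∈ Set.range I} = Fintype.card κ :=
      (Fintype.card_congr (Equiv.ofInjective I hinj)).symm
    have h2 := Fintype.card_subtype_compl (fun s : σ => s ∈ Set.range I)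
    rw [h1] at h2
    omega
  let f : π ≃ {s : σ // s ∉ Set.range I} := Fintype.equivOfCardEq hc
  let ρ : π → σ := fun p => (f p : σ)
  have hρinj : Function.Injective ρ := fun p q hpq => f.injective (Subtype.ext hpq)
  have hρI : ∀ p m, ρ p ≠ I m := fun p m h => (f p).2 ⟨m, h.symm⟩
  have hεinj : Function.Injective (Sum.elim ρ I) := by
    rintro (p | m) (q | n) h
    · exact congrArg Sum.inl (hρinj h)
    · exact absurd h (hρI p n)
    · exact absurd h.symm (hρI q m)
    · exact congrArg Sum.inr (hinj h)
  have hbij : Function.Bijective (Sum.elim ρ I) := by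
    rw [Fintype.bijective_iff_injective_and_card]
    exact ⟨hεinj, by rw [Fintype.card_sum, hcard]⟩
  let ε : π ⊕ κ ≃ σ := Equiv.ofBijective _ hbij
  have hε : ∀ x, ε x = Sum.elim ρ I x := fun x => rfl
  refine ⟨ρ, fun e => ?_⟩
  set C : Matrix σ σ F := Matrix.of fun i j =>
    Sum.elim (fun p => (Pi.single (ρ p) 1 : σ → F)) A (e.symm i) j with hC
  have h1 : (C.submatrix e ε).det = Matrix.det (Matrix.of fun l m => A l (I m)) := by
    have h2 : C.submatrix e ε = Matrix.fromBlocks 1 0 (Matrix.of fun l p => A l (ρ p))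
        (Matrix.of fun l m => A l (I m)) := by
      ext x x'
      rw [Matrix.submatrix_apply, hC, Matrix.of_apply, Equiv.symm_apply_apply, hε]
      rcases x with p | l <;> rcases x' with q | m
      · simp only [Sum.elim_inl, Matrix.fromBlocks_apply₁₁, Matrix.one_apply, Pi.single_apply]
        by_cases hpq : p = q
        · rw [hpq]; simp
        · rw [if_neg hpq, if_neg]
          exact fun h => hpq (hρinj h).symm
      · simp only [Sum.elim_inl, Sum.elim_inr, Matrix.fromBlocks_apply₁₂, Matrix.zero_apply,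
          Pi.single_apply]
        rw [if_neg]
        exact fun h => hρI p m h.symm
      · simp only [Sum.elim_inl, Sum.elim_inr, Matrix.fromBlocks_apply₂₁, Matrix.of_apply]
      · simp only [Sum.elim_inr, Matrix.fromBlocks_apply₂₂, Matrix.of_apply]
    rw [h2, Matrix.det_fromBlocks_zero₁₂, Matrix.det_one, one_mul]
  have h3 : C.submatrix e ε = (C.submatrix e e).submatrix id (ε.trans e.symm) := by
    ext x x'
    simp [Matrix.submatrix_apply]
  have h4 := Matrix.det_permute' (ε.trans e.symm) (C.submatrix e e)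
  rw [← h3, h1, Matrix.det_submatrix_equiv_self] at h4
  rcases Int.units_eq_one_or (Equiv.Perm.sign (ε.trans e.symm)) with hs | hs
  · left
    rw [hs] at h4
    rw [h4]; simp
  · right
    rw [hs] at h4
    rw [h4]; simp

end Pool.Agent.H17LG
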