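import Pool.Agent.H17LG.Base
import Pool.Agent.H17GT.ModFORM
import Pool.Agent.H17LG.ModLDET

/-!
# The canonical form of a pair along boundary divisors
-/

open MvPolynomial
open Pool.Agent.H23 (RatForm regularForms PrimeDivisorOver dualDer)
open Pool.Agent.H17GT
open Pool.Agent.H79.Log (subSys)

noncomputable section

namespace Pool.Agent.H17LG

variable {K : Type} [Field K] [Algebra ℂ K]

namespace RegB

/-! ### evaluation of polynomials and derivations over `ℤ` -/

omit [Algebra ℂ K] in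
private theorem coefEval_eq_sum {σ : Type*} {φ : ℂ → K} (h0 : φ 0 = 0) (x : σ → K)
    (G : MvPolynomial σ ℂ) {S : Finset (σ →₀ ℕ)} (hS : G.support ⊆ S) :
    coefEval φ x G = ∑ m ∈ S, φ (G.coeff m) * m.prod fun i e => x i ^ e := by
  unfold coefEval
  refine Finset.sum_subset hS fun m _ hm => ?_
  rw [notMem_support_iff.1 hm, h0, zero_mul]

omit [Algebra ℂ K] in
private theorem coefEval_add {σ : Type*} {φ : ℂ → K} (h0 : φ 0 = 0)
    (hφ : ∀ a b, φ (a + b) = φ a + φ b) (x : σ → K) (G H : MvPolynomial σ ℂ) :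
    coefEval φ x (G + H) = coefEval φ x G + coefEval φ x H := by
  classical
  rw [coefEval_eq_sum h0 x (G + H) (S := G.support ∪ H.support) support_add,
    coefEval_eq_sum h0 x G (S := G.support ∪ H.support) Finset.subset_union_left,
    coefEval_eq_sum h0 x H (S := G.support ∪ H.support) Finset.subset_union_right,
    ← Finset.sum_add_distrib]
  refine Finset.sum_congr rfl fun m _ => ?_
  rw [coeff_add, hφ, add_mul]

omit [Algebra ℂ K] in
private theorem coefEval_monomial {σ : Type*} {φ : ℂ → K} (h0 : φ 0 = 0) (x : σ → K)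
    (m : σ →₀ ℕ) (a : ℂ) :
    coefEval φ x (monomial m a) = φ a * m.prod fun i e => x i ^ e := by
  classical
  rw [coefEval_eq_sum h0 x _ (S := {m}) support_monomial_subset, Finset.sum_singleton,
    coeff_monomial, if_pos rfl]

omit [Algebra ℂ K] in
private theorem coefEval_mul_X {σ : Type*} {φ : ℂ → K} (h0 : φ 0 = 0)
    (hφ : ∀ a b, φ (a + b) = φ a + φ b) (x : σ → K) (G : MvPolynomial σ ℂ) (n : σ) :
    coefEval φ x (G * X n) = coefEval φ x G * x n := by
  classical
  induction G using MvPolynomial.induction_on' with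
  | monomial m a =>
    rw [X, monomial_mul, mul_one, coefEval_monomial h0, coefEval_monomial h0, mul_assoc]
    congr 1
    rw [Finsupp.prod_add_index' (h := fun i e => x i ^ e) (fun i => pow_zero _)
      (fun i a b => pow_add _ _ _),
      Finsupp.prod_single_index (h := fun i e => x i ^ e) (pow_zero _), pow_one]
  | add p q hp hq =>
    rw [add_mul, coefEval_add h0 hφ, hp, hq, coefEval_add h0 hφ, add_mul]

private theorem der_aeval {σ : Type*} [Fintype σ] (D' : Derivation ℤ K K) (x : σ → K)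
    (G : MvPolynomial σ ℂ) :
    D' (aeval x G) = coefEval (fun a => D' (algebraMap ℂ K a)) x G +
      ∑ i, aeval x (pderiv i G) * D' (x i) := by
  classical
  have h0 : (fun a : ℂ => D' (algebraMap ℂ K a)) 0 = 0 := by simp
  have hφ : ∀ a b, (fun a : ℂ => D' (algebraMap ℂ K a)) (a + b) =
      (fun a : ℂ => D' (algebraMap ℂ K a)) a + (fun a : ℂ => D' (algebraMap ℂ K a)) b := by
    intro a b
    simp
  induction G using MvPolynomial.induction_on with
  | C a =>
    have h1 : (C a : MvPolynomial σ ℂ) = monomial 0 a := rfl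
    rw [h1, coefEval_monomial h0, ← h1]
    simp
  | add p q hp hq =>
    rw [map_add, map_add, hp, hq, coefEval_add h0 hφ]
    simp only [map_add, add_mul, Finset.sum_add_distrib]
    ring
  | mul_X p n hp =>
    rw [map_mul, aeval_X, Derivation.leibniz, hp, coefEval_mul_X h0 hφ]
    simp only [Derivation.leibniz, smul_eq_mul, map_add, map_mul, aeval_X, add_mul,
      Finset.sum_add_distrib]
    have h1 : ∑ i, aeval x p * aeval x (pderiv i (X n : MvPolynomial σ ℂ)) * D' (x i) =
        aeval x p * D' (x n) := by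
      rw [Finset.sum_eq_single n]
      · simp
      · intro i _ hi
        rw [pderiv_X_of_ne (Ne.symm hi)]
        simp
      · intro h
        exact absurd (Finset.mem_univ _) h
    have h2 : ∑ i, x n * aeval x (pderiv i p) * D' (x i) =
        x n * ∑ i, aeval x (pderiv i p) * D' (x i) := by
      rw [Finset.mul_sum]
      exact Finset.sum_congr rfl fun i _ => mul_assoc _ _ _
    rw [h1, h2]
    ring

/-! ### linear algebra -/

/-- The block identity in the form in which it is used: `t` are vectors in the kernel of the linear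
forms `J`, and `J, J'` have a minor which is a unit. -/
lemma block {F : Type*} [Field F] {τ γ μ σ : Type} [Fintype τ] [Fintype γ] [Fintype μ] [Fintype σ]
    [DecidableEq τ] [DecidableEq γ] [DecidableEq μ] [DecidableEq σ] (e : τ ⊕ γ ≃ σ)
    (J : Matrix γ σ F) (J' : Matrix μ σ F) (t : τ → σ → F) (ht : ∀ i, J.mulVec (t i) = 0)
    (ν : γ → σ → F) (I : γ ⊕ μ → σ)
    (hI : Matrix.det (Matrix.of fun l m => Sum.elim J J' l (I m)) ≠ 0) :
    ∃ (n : ℕ) (e' : Fin n ⊕ μ ≃ τ) (ρ : Fin n → σ) (ε : F), (ε = 1 ∨ ε = -1) ∧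
      Matrix.det (Matrix.of fun i j => Sum.elim t ν (e.symm i) j) *
          (ε * Matrix.det (Matrix.of fun l m => Sum.elim J J' l (I m))) =
        Matrix.det (Matrix.of fun i i' => Sum.elim (fun p => t i (ρ p)) (fun m => J'.mulVec (t i) m)
          (e'.symm i')) * Matrix.det (Matrix.of fun a b => J.mulVec (ν a) b) := by
  classical
  have hinj : Function.Injective I := by
    intro a b hab
    by_contra hne
    exact hI (Matrix.det_zero_of_column_eq hne fun l => by
      rw [Matrix.of_apply, Matrix.of_apply, hab])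
  have hle : Fintype.card (γ ⊕ μ) ≤ Fintype.card σ := Fintype.card_le_of_injective I hinj
  have hσ : Fintype.card τ + Fintype.card γ = Fintype.card σ := by
    rw [← Fintype.card_sum]
    exact Fintype.card_congr e
  rw [Fintype.card_sum] at hle
  set n : ℕ := Fintype.card σ - Fintype.card (γ ⊕ μ) with hn
  rw [Fintype.card_sum] at hn
  obtain ⟨e'⟩ : Nonempty (Fin n ⊕ μ ≃ τ) := ⟨Fintype.equivOfCardEq (by
    rw [Fintype.card_sum, Fintype.card_fin]
    omega)⟩
  obtain ⟨ρ, hρ⟩ := exists_completion (π := Fin n) (Sum.elim J J') I hI (by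
    rw [Fintype.card_sum, Fintype.card_fin]
    omega)
  let e'' : Fin n ⊕ (γ ⊕ μ) ≃ σ :=
    ((Equiv.refl _).sumCongr (Equiv.sumComm γ μ)).trans
      (((Equiv.sumAssoc (Fin n) μ γ).symm).trans ((e'.sumCongr (Equiv.refl γ)).trans e))
  have hdet := det_mul_det_block e e' J J' ρ t ht ν
  have key : ∀ a : τ ⊕ γ, (Sum.elim (fun i =>
      Sum.elim (fun p => (Pi.single (ρ p) 1 : σ → F)) J' (e'.symm i)) J a : σ → F) =
        Sum.elim (fun p => (Pi.single (ρ p) 1 : σ → F)) (Sum.elim J J') (e''.symm (e a)) := by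
    intro a
    have h0 : e''.symm (e a) = ((Equiv.refl (Fin n)).sumCongr (Equiv.sumComm γ μ)).symm
        ((Equiv.sumAssoc (Fin n) μ γ) ((e'.sumCongr (Equiv.refl γ)).symm a)) := by
      rw [Equiv.symm_apply_eq]
      simp [e'']
    rcases a with s | s
    · obtain ⟨u, rfl⟩ := e'.surjective s
      have h1 : (e'.sumCongr (Equiv.refl γ)).symm (Sum.inl (e' u)) = Sum.inl u := by simp
      rw [h1] at h0
      have h2 : e'.symm (e' u) = u := e'.symm_apply_apply u
      change (Sum.elim (fun p => (Pi.single (ρ p) 1 : σ → F)) J' (e'.symm (e' u)) : σ → F) = _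
      rcases u with u | u
      · exact (congrArg (fun v => (Sum.elim (fun p => (Pi.single (ρ p) 1 : σ → F)) J' v : σ → F))
          h2).trans (congrArg (fun v => (Sum.elim (fun p => (Pi.single (ρ p) 1 : σ → F))
            (Sum.elim J J') v : σ → F)) h0).symm
      · exact (congrArg (fun v => (Sum.elim (fun p => (Pi.single (ρ p) 1 : σ → F)) J' v : σ → F))
          h2).trans (congrArg (fun v => (Sum.elim (fun p => (Pi.single (ρ p) 1 : σ → F))
            (Sum.elim J J') v : σ → F)) h0).symm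
    · have h1 : (e'.sumCongr (Equiv.refl γ)).symm (Sum.inr s) = Sum.inr s := by simp
      rw [h1] at h0
      exact (congrArg (fun v => (Sum.elim (fun p => (Pi.single (ρ p) 1 : σ → F))
            (Sum.elim J J') v : σ → F)) h0).symm
  have hmat : (Matrix.of fun i j => Sum.elim (fun i =>
      Sum.elim (fun p => (Pi.single (ρ p) 1 : σ → F)) J' (e'.symm i)) J (e.symm i) j) =
      Matrix.of fun i j =>
        Sum.elim (fun p => (Pi.single (ρ p) 1 : σ → F)) (Sum.elim J J') (e''.symm i) j := by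
    ext i j
    have h1 := congrFun (key (e.symm i)) j
    rw [e.apply_symm_apply] at h1
    exact h1
  rw [hmat] at hdet
  rcases hρ e'' with h | h
  · refine ⟨n, e', ρ, 1, Or.inl rfl, ?_⟩
    rw [one_mul, ← h]
    exact hdet
  · refine ⟨n, e', ρ, -1, Or.inr rfl, ?_⟩
    rw [neg_one_mul, ← h]
    exact hdet

open FormX

omit [Algebra ℂ K] in
lemma alg_id2 (s a b Ry Md R' u T' Δ P Q : K) (n A B C : ℕ) (hs : s ≠ 0) (hΔ : Δ ≠ 0) (hP : P ≠ 0)
    (hQ : Q ≠ 0) (hu : u ≠ 0) (h1 : R' = Md * Ry) (h2 : R' * u = P * T' * Δ)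
    (hexp : n + 1 + A = B + C) :
    Md * (((s * a) * (s * b) ^ n) * ((s ^ A * Ry) / ((s ^ B * Δ) * (s ^ C * (P * Q))))) =
      (a * b ^ n) * (T' * u⁻¹ * Q⁻¹) := by
  have h3 : Md * Ry * u = P * T' * Δ := by rw [← h1, h2]
  have h4 : s ^ n * s * s ^ A = s ^ B * s ^ C := by
    rw [← pow_add, ← hexp, pow_add, pow_succ]
  have h5 : (a * b ^ n) * (T' * u⁻¹ * Q⁻¹) = ((a * b ^ n) * T') / (u * Q) := by
    field_simp
  have h6 : (s ^ B * Δ) * (s ^ C * (P * Q)) ≠ 0 :=
    mul_ne_zero (mul_ne_zero (pow_ne_zero _ hs) hΔ)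
      (mul_ne_zero (pow_ne_zero _ hs) (mul_ne_zero hP hQ))
  rw [h5, mul_div_assoc', mul_div_assoc', div_eq_div_iff h6 (mul_ne_zero hu hQ), mul_pow]
  linear_combination (a * b ^ n * Q * s ^ n * s * s ^ A) * h3 + (a * b ^ n * Q * P * T' * Δ) * h4

lemma det_mem' {τ : Type*} [Fintype τ] [DecidableEq τ] (O : Subalgebra ℂ K) (A : Matrix τ τ K)
    (hA : ∀ i j, A i j ∈ O) : A.det ∈ O := by
  rw [Matrix.det_apply']
  apply sum_mem
  intro σ _
  exact O.mul_mem (intCast_mem O _) (O.prod_mem fun i _ => hA _ _)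

/-- `f / g` is in the local ring if the order of `g` is at most that of `f`. -/
lemma div_mem {k : ℕ} (E : PrimeDivisorOver K k) {f g : K} (hg : g ≠ 0) (h : E.ord g ≤ E.ord f) :
    0 ≤ E.ord (f / g) := by
  by_contra h2
  push Not at h2
  have h3 : E.ord f = E.ord (f / g) + E.ord g := by
    rw [← AddValuation.map_mul, div_mul_cancel₀ _ hg]
  have h4 : E.ord g ≠ ⊤ := (AddValuation.ne_top_iff E.ord).2 hg
  have h5 : E.ord (f / g) + E.ord g < 0 + E.ord g := WithTop.add_lt_add_right h4 h2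
  rw [← h3, zero_add] at h5
  exact absurd h (not_le.2 h5)

/-- The common part of `regular_of_not_onBdry` and `logRegular`. -/
theorem core {N c b k r : ℕ} {d : Fin c → ℕ} {δ : Fin b → ℕ} (hd : ∀ l, 1 ≤ d l)
    {G : Fin c → MvPolynomial (Fin (N + 1)) ℂ} {H : Fin b → MvPolynomial (Fin (N + 1)) ℂ}
    (hG : ∀ l, (G l).IsHomogeneous (d l)) (hH : ∀ m, (H m).IsHomogeneous (δ m))
    (hcert : PairCertificate G H) {x : Fin (N + 1) → K}
    (hGx : ∀ l, aeval x (G l) = 0) (hHx : ∀ m, aeval x (H m) ≠ 0)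
    (w : Fin r → ℕ) (D' : Fin r → Derivation ℤ K K)
    (hgood : ∀ i, LogGood (k + 1) x H (w i) (D' i))
    (hker : ∀ i, jac G x (fun j => D' i (x j)) = 0)
    (e : (Unit ⊕ (Fin r ⊕ Fin (k + 1))) ⊕ Fin c ≃ Fin (N + 1))
    (hcard : 1 + r + (k + 1) + c = N + 1) {n : ℕ}
    (hdeg : N + 1 + ∑ i, w i + (n + 1) = ∑ l, d l + ∑ m, δ m)
    (ν₀ : Fin c → Fin (N + 1) → K)
    (hν₀ : Matrix.det (Matrix.of fun a b => jac G x (ν₀ a) b) ≠ 0)
    (E : PrimeDivisorOver K (k + 1)) {g : Fin (k + 1) → K}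
    (β : Module.Basis (Fin (k + 1)) K Ω[K⁄ℂ]) (hβ : ∀ i, β i = KaehlerDifferential.D ℂ K (g i))
    (s : K) (hs0 : s ≠ 0) (j₁ : Fin (N + 1)) (hj₁ : x j₁ = s) (hyO : ∀ i, 0 ≤ E.ord (x i / s))
    (η' : Fin (k + 1) → Derivation ℂ K K) (M : Matrix (Fin (k + 1)) (Fin (k + 1)) K)
    (hM : ∀ i f, η' i f = ∑ j, M i j * dualDer β j f)
    (hη : ∀ i f, 0 ≤ E.ord f → 0 ≤ E.ord (η' i f))
    (hη' : ∀ i m, 0 < E.ord (aeval (fun i => x i / s) (H m)) →
      E.ord (aeval (fun i => x i / s) (H m)) ≤ E.ord (η' i (aeval (fun i => x i / s) (H m))))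
    (i₀ j₀ : Fin (N + 1)) :
    0 ≤ E.ord (M.det * ((x i₀ * x j₀ ^ n) * (rdet e (Sum.elim (fam x D' (dualDer β)) ν₀) /
      (Matrix.det (Matrix.of fun a b => jac G x (ν₀ a) b) * ∏ m, aeval x (H m))))) := by
  classical
  set y : Fin (N + 1) → K := fun i => x i / s with hy
  have hxy : x = fun i => s * y i := by
    funext i
    rw [hy]
    field_simp
  choose D'' γ hD'' hH'' hγ using fun i => hgood i E s hs0 hyO
  have hGy : ∀ l, aeval y (G l) = 0 := by
    intro l
    have h1 := hGx l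
    rw [hxy, aeval_scale (hG l)] at h1
    exact (mul_eq_zero.1 h1).resolve_left (pow_ne_zero _ hs0)
  have hHxy : ∀ m, aeval x (H m) = s ^ δ m * aeval y (H m) := by
    intro m
    conv_lhs => rw [hxy]
    exact aeval_scale (hH m) s y
  have hHy : ∀ m, aeval y (H m) ≠ 0 := by
    intro m h0
    apply hHx m
    rw [hHxy m, h0, mul_zero]
  have hyj : y j₁ = 1 := by
    rw [hy]
    change x j₁ / s = 1
    rw [hj₁]
    exact div_self hs0
  have hO : ∀ i, y i ∈ E.localRing := hyO
  have hPO : ∀ P : MvPolynomial (Fin (N + 1)) ℂ, 0 ≤ E.ord (aeval y P) := fun P =>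
    aeval_mem E.localRing hO P
  set S : Finset (Fin b) := Finset.univ.filter fun m => 0 < E.ord (aeval y (H m)) with hS
  obtain ⟨I, hI⟩ := exists_unit_minor_pair hcert hGy E hyO j₁ hyj S fun m hm =>
    (Finset.mem_filter.1 hm).2
  set J : Matrix (Fin c) (Fin (N + 1)) K := Matrix.of fun l i => aeval y (pderiv i (G l)) with hJ
  set J' : Matrix {m // m ∈ S} (Fin (N + 1)) K :=
    Matrix.of fun m i => aeval y (pderiv i (H m.1)) with hJ'
  have hmin : (Matrix.of fun l m => aeval y (pderiv (I m) (subSys S G H l))) =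
      Matrix.of fun l m => Sum.elim J J' l (I m) := by
    ext l m
    rcases l with l | l
    · rfl
    · rfl
  rw [hmin] at hI
  have hm0 : Matrix.det (Matrix.of fun l m => Sum.elim J J' l (I m)) ≠ 0 := by
    intro h0
    rw [h0, AddValuation.map_zero] at hI
    exact absurd hI (by simp)
  have hyy : jac G y y = 0 := jac_self hG hGy
  -- the vectors are tangent
  have hJD : ∀ i, jac G y (fun j => D'' i (y j)) = 0 := by
    intro i
    have h1 : jac G y (fun j => D' i (x j)) = 0 := by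
      funext l
      have h2 := congrFun (hker i) l
      have h3 : jac G x (fun j => D' i (x j)) l =
          s ^ (d l - 1) * jac G y (fun j => D' i (x j)) l := by
        have h4 := jac_scale hG s y (fun j => D' i (x j)) l
        rw [← h4, ← hxy]
      rw [h3] at h2
      exact (mul_eq_zero.1 h2).resolve_left (pow_ne_zero _ hs0)
    have h2 : (fun j => D' i (x j)) = s • (s ^ w i • ((fun j => D'' i (y j)) +
        fun j => γ i (y j))) + D' i s • y := by
      funext j
      have h3 : x j = s * y j := congrFun hxy j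
      simp only [Pi.add_apply, Pi.smul_apply, smul_eq_mul]
      rw [h3, Derivation.leibniz, smul_eq_mul, smul_eq_mul, hγ i (y j)]
      ring
    rw [h2, map_add, map_smul, map_smul, map_smul, hyy, smul_zero, add_zero, map_add,
      jac_der hGy (γ i), add_zero, smul_smul] at h1
    exact (smul_eq_zero.1 h1).resolve_left (mul_ne_zero hs0 (pow_ne_zero _ hs0))
  have ht : ∀ i, J.mulVec (fam y D'' η' i) = 0 := by
    rintro (u | i | i)
    · exact hyy
    · exact hJD i
    · exact jac_der hGy (η' i)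
  obtain ⟨q, e', ρ, ε, hε, hdet⟩ := block e J J' (fam y D'' η') ht ν₀ I hm0
  set u : K := ε * Matrix.det (Matrix.of fun l m => Sum.elim J J' l (I m)) with hu
  have hu0 : E.ord u = 0 := by
    rw [hu]
    rcases hε with rfl | rfl
    · rw [one_mul, hI]
    · rw [neg_one_mul, AddValuation.map_neg, hI]
  have hu1 : u ≠ 0 := by
    intro h0
    rw [h0, AddValuation.map_zero] at hu0
    exact absurd hu0 (by simp)
  set Δ : K := Matrix.det (Matrix.of fun a b => J.mulVec (ν₀ a) b) with hΔ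
  have hΔx : Matrix.det (Matrix.of fun a b => jac G x (ν₀ a) b) = s ^ (∑ l, (d l - 1)) * Δ := by
    have h1 : (Matrix.of fun a b => jac G x (ν₀ a) b) =
        Matrix.of fun a b => s ^ (d b - 1) * (Matrix.of fun a b => J.mulVec (ν₀ a) b) a b := by
      ext a b
      rw [Matrix.of_apply, Matrix.of_apply, Matrix.of_apply]
      conv_lhs => rw [hxy]
      exact jac_scale hG s y (ν₀ a) b
    rw [h1, Matrix.det_mul_row, Finset.prod_pow_eq_pow_sum]
  have hΔ0 : Δ ≠ 0 := by
    intro h0
    rw [hΔx, h0, mul_zero] at hν₀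
    exact hν₀ rfl
  have hscale : rdet e (Sum.elim (fam x D' (dualDer β)) ν₀) =
      s ^ (1 + ∑ i, (w i + 1) + (k + 1)) * rdet e (Sum.elim (fam y D'' (dualDer β)) ν₀) := by
    conv_lhs => rw [hxy]
    apply rdet_scale e s y D' D'' (dualDer β) ν₀ w (fun i j => γ i (g j))
    intro i f
    rw [hγ i f, der_eq_sum β hβ (γ i) f]
  have hchange : rdet e (Sum.elim (fam y D'' η') ν₀) =
      M.det * rdet e (Sum.elim (fam y D'' (dualDer β)) ν₀) :=
    rdet_change e y D'' (dualDer β) η' ν₀ M hM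
  have hexp : (n + 1) + (1 + ∑ i, (w i + 1) + (k + 1)) = ∑ l, (d l - 1) + ∑ m, δ m := by
    have h1 : ∑ l, (d l - 1) + c = ∑ l, d l := by
      have : ∑ l, d l = ∑ l, ((d l - 1) + 1) := Finset.sum_congr rfl fun l _ => by
        have := hd l
        omega
      rw [this, Finset.sum_add_distrib, Finset.sum_const, Finset.card_univ, Fintype.card_fin,
        smul_eq_mul, mul_one]
    have h2 : ∑ i, (w i + 1) = ∑ i, w i + r := by
      rw [Finset.sum_add_distrib, Finset.sum_const, Finset.card_univ, Fintype.card_fin,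
        smul_eq_mul, mul_one]
    omega
  -- the columns which belong to the boundary
  set T : Matrix (Unit ⊕ (Fin r ⊕ Fin (k + 1))) (Unit ⊕ (Fin r ⊕ Fin (k + 1))) K :=
    Matrix.of fun i i' => Sum.elim (fun p => fam y D'' η' i (ρ p))
      (fun m => J'.mulVec (fam y D'' η' i) m) (e'.symm i') with hT
  set C : Fin q ⊕ {m // m ∈ S} → K := Sum.elim (fun _ => 1) (fun m => aeval y (H m.1)) with hC
  have hC0 : ∀ a, C a ≠ 0 := by
    rintro (a | a)
    · exact one_ne_zero
    · exact hHy a.1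
  have hJ'v : ∀ (v : Fin (N + 1) → K) (m : {m // m ∈ S}),
      J'.mulVec v m = ∑ j, aeval y (pderiv j (H m.1)) * v j := fun v m => rfl
  have hcol : ∀ i i', E.ord (C (e'.symm i')) ≤ E.ord (T i i') := by
    intro i i'
    rw [hT, Matrix.of_apply]
    rcases e'.symm i' with p | m
    · change E.ord (1 : K) ≤ E.ord (fam y D'' η' i (ρ p))
      rw [AddValuation.map_one]
      rcases i with u | i | i
      · exact hO (ρ p)
      · exact le_trans (hO (ρ p)) (hD'' i _)
      · exact hη i _ (hO (ρ p))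
    · change E.ord (aeval y (H m.1)) ≤ E.ord (J'.mulVec (fam y D'' η' i) m)
      have hm : 0 < E.ord (aeval y (H m.1)) := (Finset.mem_filter.1 m.2).2
      rcases i with u | i | i
      · have h1 : J'.mulVec (fam y D'' η' (Sum.inl u)) m = (δ m.1 : K) * aeval y (H m.1) := by
          rw [hJ'v]
          have h := congrArg (aeval y) (hH m.1).sum_X_mul_pderiv
          rw [map_sum, map_nsmul] at h
          simp only [map_mul, aeval_X] at h
          rw [nsmul_eq_mul] at h
          rw [← h]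
          exact Finset.sum_congr rfl fun i _ => mul_comm _ _
        rw [h1, AddValuation.map_mul]
        exact le_add_of_nonneg_left (natCast_mem E.localRing (δ m.1))
      · have h1 : J'.mulVec (fam y D'' η' (Sum.inr (Sum.inl i))) m = D'' i (aeval y (H m.1)) -
            coefEval (fun a => D'' i (algebraMap ℂ K a)) y (H m.1) := by
          rw [hJ'v, der_aeval (D'' i) y (H m.1)]
          rw [add_sub_cancel_left]
          rfl
        rw [h1]
        exact le_trans (le_min (hD'' i _) (hH'' i m.1)) (E.ord.map_sub _ _)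
      · have h1 : J'.mulVec (fam y D'' η' (Sum.inr (Sum.inr i))) m = η' i (aeval y (H m.1)) := by
          rw [hJ'v, der_aeval_complex]
          rfl
        rw [h1]
        exact hη' i m.1 hm
  set T' : Matrix (Unit ⊕ (Fin r ⊕ Fin (k + 1))) (Unit ⊕ (Fin r ⊕ Fin (k + 1))) K :=
    Matrix.of fun i i' => T i i' / C (e'.symm i') with hT'
  have hT'O : T'.det ∈ E.localRing := by
    apply det_mem'
    intro i i'
    exact div_mem E (hC0 _) (hcol i i')
  set P : K := ∏ m ∈ S, aeval y (H m) with hP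
  set Q : K := ∏ m ∈ Finset.univ.filter fun m => ¬ 0 < E.ord (aeval y (H m)), aeval y (H m) with hQ
  have hP0 : P ≠ 0 := Finset.prod_ne_zero_iff.2 fun m _ => hHy m
  have hQ0 : Q ≠ 0 := Finset.prod_ne_zero_iff.2 fun m _ => hHy m
  have hQ1 : E.ord Q = 0 := by
    rw [hQ]
    refine Finset.prod_induction _ (fun f => E.ord f = 0) (fun a b ha hb => ?_)
      (AddValuation.map_one _) fun m hm => ?_
    · rw [AddValuation.map_mul, ha, hb, add_zero]
    · have h1 := (Finset.mem_filter.1 hm).2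
      exact le_antisymm (not_lt.1 h1) (hPO _)
  have hTdet : T.det = P * T'.det := by
    have h1 : T = Matrix.of fun i i' => C (e'.symm i') * T' i i' := by
      ext i i'
      rw [Matrix.of_apply, hT', Matrix.of_apply, mul_div_cancel₀ _ (hC0 _)]
    have h2 : ∏ i', C (e'.symm i') = P := by
      rw [Equiv.prod_comp e'.symm C, Fintype.prod_sum_type]
      simp only [hC, Sum.elim_inl, Sum.elim_inr, Finset.prod_const_one, one_mul]
      rw [hP, Finset.prod_coe_sort S fun m => aeval y (H m)]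
    conv_lhs => rw [h1]
    rw [Matrix.det_mul_row, h2]
  have hprod : ∏ m, aeval x (H m) = s ^ (∑ m, δ m) * (P * Q) := by
    rw [Finset.prod_congr rfl fun m _ => hHxy m, Finset.prod_mul_distrib,
      Finset.prod_pow_eq_pow_sum, hP, hQ, hS, Finset.prod_filter_mul_prod_filter_not]
  have hdet' : rdet e (Sum.elim (fam y D'' η') ν₀) * u = P * T'.det * Δ := by
    rw [← hTdet]
    exact hdet
  have hmain := alg_id2 s (y i₀) (y j₀) (rdet e (Sum.elim (fam y D'' (dualDer β)) ν₀)) M.det
    (rdet e (Sum.elim (fam y D'' η') ν₀)) u T'.det Δ P Q n (1 + ∑ i, (w i + 1) + (k + 1))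
    (∑ l, (d l - 1)) (∑ m, δ m) hs0 hΔ0 hP0 hQ0 hu1 hchange hdet' hexp
  have h2 : x i₀ = s * y i₀ := congrFun hxy i₀
  have h3 : x j₀ = s * y j₀ := congrFun hxy j₀
  rw [h2, h3, hscale, hΔx, hprod, hmain]
  change _ ∈ E.localRing
  refine E.localRing.mul_mem (E.localRing.mul_mem (hO _) (E.localRing.pow_mem (hO _) n))
    (E.localRing.mul_mem (E.localRing.mul_mem hT'O ?_) ?_)
  · change 0 ≤ E.ord _
    rw [H23.val_inv E.ord hu0]
  · change 0 ≤ E.ord _
    rw [H23.val_inv E.ord hQ1]

/-- A coordinate of minimal order. -/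
lemma exists_min {N k : ℕ} (E : PrimeDivisorOver K k) {x : Fin (N + 1) → K} (hx : x ≠ 0) :
    ∃ j, x j ≠ 0 ∧ ∀ i, 0 ≤ E.ord (x i / x j) := by
  obtain ⟨j₁, -, hj₁⟩ := Finset.exists_min_image (Finset.univ : Finset (Fin (N + 1)))
    (fun j => E.ord (x j)) Finset.univ_nonempty
  have hs0 : x j₁ ≠ 0 := by
    intro h0
    apply hx
    funext j
    have h1 := hj₁ j (Finset.mem_univ j)
    rw [h0, AddValuation.map_zero, top_le_iff] at h1
    exact (AddValuation.top_iff E.ord).1 h1
  exact ⟨j₁, hs0, fun i => div_mem E hs0 (hj₁ i (Finset.mem_univ i))⟩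

end RegB

open FormX in
theorem logRegular {N c b k r : ℕ} {d : Fin c → ℕ} {δ : Fin b → ℕ} (hd : ∀ l, 1 ≤ d l)
    {G : Fin c → MvPolynomial (Fin (N + 1)) ℂ} {H : Fin b → MvPolynomial (Fin (N + 1)) ℂ}
    (hG : ∀ l, (G l).IsHomogeneous (d l)) (hH : ∀ m, (H m).IsHomogeneous (δ m))
    (hcert : PairCertificate G H) {x : Fin (N + 1) → K} (hx : x ≠ 0)
    (hGx : ∀ l, aeval x (G l) = 0) (hHx : ∀ m, aeval x (H m) ≠ 0)
    (w : Fin r → ℕ) (D' : Fin r → Derivation ℤ K K)
    (hgood : ∀ i, LogGood (k + 1) x H (w i) (D' i))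
    (hker : ∀ i, jac G x (fun j => D' i (x j)) = 0)
    (e : (Unit ⊕ (Fin r ⊕ Fin (k + 1))) ⊕ Fin c ≃ Fin (N + 1))
    (hcard : 1 + r + (k + 1) + c = N + 1) {n : ℕ}
    (hdeg : N + 1 + ∑ i, w i + (n + 1) = ∑ l, d l + ∑ m, δ m)
    (ν₀ : Fin c → Fin (N + 1) → K)
    (hν₀ : Matrix.det (Matrix.of fun a b => jac G x (ν₀ a) b) ≠ 0)
    (E : PrimeDivisorOver K (k + 1)) {g : Fin (k + 1) → K}
    (β : Module.Basis (Fin (k + 1)) K Ω[K⁄ℂ]) (hβ : ∀ i, β i = KaehlerDifferential.D ℂ K (g i))
    (hg : E.ord (g 0) = 1) (hη : ∀ i f, 0 ≤ E.ord f → 0 ≤ E.ord (dualDer β i f))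
    (hη' : ∀ i, i ≠ 0 → ∀ f, E.ord f ≤ E.ord (dualDer β i f))
    (hη0 : ∀ f, E.ord f ≤ E.ord (g 0 * dualDer β 0 f)) (i₀ j₀ : Fin (N + 1)) :
    0 ≤ E.ord ((x i₀ * x j₀ ^ n) * (rdet e (Sum.elim (fam x D' (dualDer β)) ν₀) /
      (Matrix.det (Matrix.of fun a b => jac G x (ν₀ a) b) * ∏ m, aeval x (H m)))) + 1 := by
  classical
  obtain ⟨j₁, hs0, hyO⟩ := RegB.exists_min E hx
  have hlog : ∀ i f, E.ord f ≤
      E.ord (((Fin.cons (g 0) fun _ => 1 : Fin (k + 1) → K) i • dualDer β i) f) := by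
    intro i f
    rw [Derivation.smul_apply, smul_eq_mul]
    refine Fin.cases ?_ (fun i => ?_) i
    · rw [Fin.cons_zero]
      exact hη0 f
    · rw [Fin.cons_succ, one_mul]
      exact hη' i.succ (Fin.succ_ne_zero i) f
  have h := RegB.core hd hG hH hcert hGx hHx w D' hgood hker e hcard hdeg ν₀ hν₀ E β hβ (x j₁) hs0
    j₁ rfl hyO (fun i => (Fin.cons (g 0) fun _ => 1 : Fin (k + 1) → K) i • dualDer β i)
    (Matrix.diagonal (Fin.cons (g 0) fun _ => 1)) (by
      intro i f
      rw [Derivation.smul_apply, smul_eq_mul]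
      simp only [Matrix.diagonal_apply, ite_mul, zero_mul, Finset.sum_ite_eq, Finset.mem_univ,
        if_true]) (fun i f hf => le_trans hf (hlog i f)) (fun i m _ => hlog i _) i₀ j₀
  rw [Matrix.det_diagonal, Fin.prod_univ_succ, AddValuation.map_mul] at h
  simp only [Fin.cons_zero, Fin.cons_succ, Finset.prod_const_one, mul_one] at h
  rw [hg, add_comm] at h
  exact h

end Pool.Agent.H17LG
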