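import Pool.Agent.H17LG.ModLREG
import Pool.Agent.H17LG.ModLREGA
import Pool.Agent.H17LG.ModLREGB
import Pool.Agent.H17GT.ModFORM

/-!
# Log general type from good derivations
-/

open MvPolynomial
open Pool.Agent.H23 (RatForm regularForms PrimeDivisorOver dualDer fc)
open Pool.Agent.H17GT
open Pool.Agent.H79.Log (SmoothPair subSys)

noncomputable section

namespace Pool.Agent.H17LG

variable {K : Type} [Field K] [Algebra ℂ K]

open FormX

theorem isLogGeneralType_of_good [Algebra.EssFiniteType ℂ K] {N c b k r : ℕ} {d : Fin c → ℕ}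
    {δ : Fin b → ℕ} (hd : ∀ l, 1 ≤ d l) {G : Fin c → MvPolynomial (Fin (N + 1)) ℂ}
    {H : Fin b → MvPolynomial (Fin (N + 1)) ℂ} (hG : ∀ l, (G l).IsHomogeneous (d l))
    (hH : ∀ m, (H m).IsHomogeneous (δ m)) (hcert : PairCertificate G H) {x : Fin (N + 1) → K}
    (hx : x ≠ 0) (hgen : IntermediateField.adjoin ℂ {y | ∃ i j, y = x i / x j} = ⊤)
    (hGx : ∀ l, aeval x (G l) = 0) (hHx : ∀ m, aeval x (H m) ≠ 0) {z : Fin (k + 1) → K}
    (hz : IsTranscendenceBasis ℂ z)
    (w : Fin r → ℕ) (D' : Fin r → Derivation ℤ K K)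
    (hgood : ∀ i, LogGood (k + 1) x H (w i) (D' i))
    (hker : ∀ i, jac G x (fun j => D' i (x j)) = 0)
    (η : Fin (k + 1) → Derivation ℂ K K)
    (hli : LinearIndependent K (Sum.elim (fun _ : Unit => x)
      (Sum.elim (fun i j => D' i (x j)) fun i j => η i (x j))))
    (hcard : 1 + r + (k + 1) + c = N + 1)
    (hdeg : N + 1 + ∑ i, w i + 1 ≤ ∑ l, d l + ∑ m, δ m) :
    IsLogGeneralType (fun E : PrimeDivisorOver K (k + 1) => OnBdry x H E) := by
  obtain ⟨b, hb⟩ := H23.exists_basis_kaehler hz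
  let e : (Unit ⊕ (Fin r ⊕ Fin (k + 1))) ⊕ Fin c ≃ Fin (N + 1) := Fintype.equivOfCardEq (by
    rw [Fintype.card_sum, Fintype.card_sum, Fintype.card_sum, Fintype.card_unit, Fintype.card_fin,
      Fintype.card_fin, Fintype.card_fin, Fintype.card_fin]
    omega)
  obtain ⟨j₀, hj₀⟩ : ∃ j, x j ≠ 0 := by
    by_contra hcon
    push Not at hcon
    exact hx (funext hcon)
  obtain ⟨I, hI⟩ : ∃ I, minor G x I ≠ 0 := by
    obtain ⟨M, B, h⟩ := cert_eval (certificate_of_pair hcert) hGx j₀
    by_contra hcon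
    push Not at hcon
    have h1 : x j₀ ^ M = 0 := by
      rw [h]
      exact Finset.sum_eq_zero fun I _ => by rw [hcon I, mul_zero]
    exact pow_ne_zero _ hj₀ h1
  set ν₀ : Fin c → Fin (N + 1) → K := fun a => Pi.single (I a) 1 with hν₀
  set Δ : K := Matrix.det (Matrix.of fun a b => jac G x (ν₀ a) b) with hΔ
  have hΔ0 : Δ ≠ 0 := hI
  set Hp : K := ∏ m, aeval x (H m) with hHp
  have hHx0 : Hp ≠ 0 := Finset.prod_ne_zero_iff.mpr fun m _ => hHx m
  obtain ⟨n, hn⟩ : ∃ n, N + 1 + ∑ i, w i + (n + 1) = ∑ l, d l + ∑ m, δ m :=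
    ⟨∑ l, d l + ∑ m, δ m - (N + 1 + ∑ i, w i + 1), by omega⟩
  -- nonvanishing
  have hδ : rdet e (Sum.elim (fam x D' η) ν₀) ≠ 0 := by
    have hB : LinearIndependent K (Sum.elim (fam x D' η) ν₀) := by
      rw [Fintype.linearIndependent_iff]
      intro a ha
      rw [Fintype.sum_sum_type] at ha
      simp only [Sum.elim_inl, Sum.elim_inr] at ha
      have hJ0 : ∀ t, jac G x (fam x D' η t) = 0 := by
        rintro (u | i | i)
        · exact jac_self hG hGx
        · exact hker i
        · exact jac_der hGx (η i)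
      have h1 := congrArg (jac G x) ha
      rw [map_add, map_sum, map_sum, map_zero] at h1
      simp only [map_smul, hJ0, smul_zero, Finset.sum_const_zero, zero_add] at h1
      have h2 : Matrix.vecMul (fun m => a (Sum.inr m)) (Matrix.of fun a b => jac G x (ν₀ a) b) =
          0 := by
        rw [← h1]
        funext l
        rw [Matrix.vecMul, dotProduct, Finset.sum_apply]
        rfl
      have h3 := Matrix.eq_zero_of_vecMul_eq_zero hΔ0 h2
      have h4 : ∀ m, a (Sum.inr m) = 0 := fun m => congrFun h3 m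
      simp only [h4, zero_smul, Finset.sum_const_zero, add_zero] at ha
      have h5 := Fintype.linearIndependent_iff.1 hli (fun t => a (Sum.inl t)) ha
      rintro (t | m)
      · exact h5 t
      · exact h4 m
    have h2 : LinearIndependent K (Matrix.of fun i j => Sum.elim (fam x D' η) ν₀ (e.symm i) j).row :=
      hB.comp _ e.symm.injective
    rw [Matrix.linearIndependent_rows_iff_isUnit, Matrix.isUnit_iff_isUnit_det] at h2
    exact h2.ne_zero
  have hchg : rdet e (Sum.elim (fam x D' η) ν₀) = (Matrix.of fun i j => η i (z j)).det *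
      rdet e (Sum.elim (fam x D' (dualDer b)) ν₀) :=
    rdet_change e x D' (dualDer b) η ν₀ _ fun i f => der_eq_sum b hb (η i) f
  have hR0 : rdet e (Sum.elim (fam x D' (dualDer b)) ν₀) ≠ 0 := by
    intro h0
    rw [h0, mul_zero] at hchg
    exact hδ hchg
  set R : K := rdet e (Sum.elim (fam x D' (dualDer b)) ν₀) / (Δ * Hp) with hR
  have hRne : R ≠ 0 := div_ne_zero hR0 (mul_ne_zero hΔ0 hHx0)
  have hform : ∀ bE : Module.Basis (Fin (k + 1)) K Ω[K⁄ℂ],
      R • exteriorPower.ιMulti K (k + 1) (fun i => b i) =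
        (rdet e (Sum.elim (fam x D' (dualDer bE)) ν₀) / (Δ * Hp)) •
          exteriorPower.ιMulti K (k + 1) (fun i => bE i) := by
    intro bE
    have h1 := H23.ιMulti_eq bE (fun i => b i)
    rw [h1, smul_smul]
    congr 1
    rw [rdet_change e x D' (dualDer b) (dualDer bE) ν₀ (bE.toMatrix b) fun i f =>
      dualDer_change b bE i f, hR, Module.Basis.det_apply]
    ring
  refine ⟨1, le_rfl, R • exteriorPower.ιMulti K (k + 1) (fun i => b i), ?_, N + 1,
    Fin.cons (x j₀ * x j₀ ^ n) fun i => x i * x j₀ ^ n, ?_, ?_, ?_⟩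
  · intro h0
    have h1 := congrArg (fc b) h0
    rw [map_smul, H23.fc_self, map_zero, smul_eq_mul, mul_one] at h1
    exact hRne h1
  · rw [Fin.cons_zero]
    exact mul_ne_zero hj₀ (pow_ne_zero _ hj₀)
  · intro i E
    obtain ⟨g, bE, hbE, hg0, hg, hη, hη', hη0⟩ := exists_logDivisorCoords hz E
    have hmem : exteriorPower.ιMulti K (k + 1) (fun i => bE i) ∈
        regularForms (k + 1) E.localRing := by
      apply AddSubgroup.subset_closure
      refine ⟨1, g, E.localRing.one_mem, hg, ?_⟩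
      rw [one_smul]
      simp only [hbE]
    constructor
    · intro hE
      refine ⟨_, _, hmem, hform bE, ?_⟩
      rw [pow_one]
      refine Fin.cases ?_ (fun i => ?_) i
      · rw [Fin.cons_zero]
        exact regular_of_not_onBdry hd hG hH hcert hx hGx hHx w D' hgood hker e hcard hn ν₀ hΔ0 E
          bE hbE hη hE j₀ j₀
      · rw [Fin.cons_succ]
        exact regular_of_not_onBdry hd hG hH hcert hx hGx hHx w D' hgood hker e hcard hn ν₀ hΔ0 E
          bE hbE hη hE i j₀
    · intro _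
      refine ⟨_, _, hmem, hform bE, ?_⟩
      rw [pow_one]
      refine Fin.cases ?_ (fun i => ?_) i
      · rw [Fin.cons_zero]
        exact logRegular hd hG hH hcert hx hGx hHx w D' hgood hker e hcard hn ν₀ hΔ0 E
          bE hbE hg0 hη hη' hη0 j₀ j₀
      · rw [Fin.cons_succ]
        exact logRegular hd hG hH hcert hx hGx hHx w D' hgood hker e hcard hn ν₀ hΔ0 E
          bE hbE hg0 hη hη' hη0 i j₀
  · set F := IntermediateField.adjoin ℂ (Set.range fun i =>
      (Fin.cons (x j₀ * x j₀ ^ n) (fun i => x i * x j₀ ^ n) : Fin (N + 1 + 1) → K) i /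
        (Fin.cons (x j₀ * x j₀ ^ n) (fun i => x i * x j₀ ^ n) : Fin (N + 1 + 1) → K) 0) with hF
    have hmem : ∀ i, x i / x j₀ ∈ F := by
      intro i
      apply IntermediateField.subset_adjoin
      refine ⟨i.succ, ?_⟩
      simp only [Fin.cons_succ, Fin.cons_zero]
      rw [mul_div_mul_right _ _ (pow_ne_zero _ hj₀)]
    have htop : F = ⊤ := by
      rw [← top_le_iff, ← hgen, IntermediateField.adjoin_le_iff]
      rintro _ ⟨i, j, rfl⟩
      have h1 : x i / x j = (x i / x j₀) / (x j / x j₀) := by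
        rw [div_div_div_cancel_right₀ hj₀]
      rw [h1]
      exact F.div_mem (hmem i) (hmem j)
    rw [htop]
    exact ⟨fun a => isAlgebraic_algebraMap (⟨a, trivial⟩ : (⊤ : IntermediateField ℂ K))⟩

end Pool.Agent.H17LG
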