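import Pool.Agent.H17LG.Base
import Pool.Agent.H17GT.ModTRANS
import Pool.Agent.H17GT.ModFORM

/-!
# Linear changes of coordinates
-/

open MvPolynomial
open Pool.Agent.H23 (RatForm regularForms PrimeDivisorOver dualDer)
open Pool.Agent.H17GT
open Pool.Agent.H79.Log (SmoothPair subSys)

noncomputable section

namespace Pool.Agent.H17LG

variable {K : Type} [Field K] [Algebra ℂ K]

private lemma ltrans_subst_subst {N : ℕ} {g h : Matrix (Fin (N + 1)) (Fin (N + 1)) ℂ}
    (hgh : g * h = 1) (P : MvPolynomial (Fin (N + 1)) ℂ) : subst h (subst g P) = P := by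
  have h1 : (aeval (fun i => ∑ j, C (h i j) * X j :
      Fin (N + 1) → MvPolynomial (Fin (N + 1)) ℂ)).comp
      (aeval (fun i => ∑ j, C (g i j) * X j : Fin (N + 1) → MvPolynomial (Fin (N + 1)) ℂ)) =
      AlgHom.id ℂ _ := by
    apply MvPolynomial.algHom_ext
    intro i
    simp only [AlgHom.comp_apply, aeval_X, map_sum, map_mul, AlgHom.id_apply]
    have h2 : ∀ j, aeval (fun i => ∑ j, C (h i j) * X j :
      Fin (N + 1) → MvPolynomial (Fin (N + 1)) ℂ) (C (g i j) : MvPolynomial (Fin (N + 1)) ℂ) =
        C (g i j) := fun j => by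
      rw [← algebraMap_eq, AlgHom.commutes]
    simp only [h2, Finset.mul_sum]
    rw [Finset.sum_comm]
    have h3 : ∀ k, ∑ j, C (g i j) * (C (h j k) * X k) =
        (C ((g * h) i k) * X k : MvPolynomial (Fin (N + 1)) ℂ) := fun k => by
      rw [Matrix.mul_apply, map_sum, Finset.sum_mul]
      refine Finset.sum_congr rfl fun j _ => ?_
      rw [map_mul, mul_assoc]
    simp only [h3, hgh, Matrix.one_apply]
    rw [Finset.sum_eq_single i]
    · simp
    · intro b _ hb
      simp [Ne.symm hb]
    · simp
  exact DFunLike.congr_fun h1 P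

private lemma ltrans_aeval_subst {N : ℕ} (h : Matrix (Fin (N + 1)) (Fin (N + 1)) ℂ)
    (x : Fin (N + 1) → K) (P : MvPolynomial (Fin (N + 1)) ℂ) :
    aeval x (subst h P) = aeval (move h x) P := by
  have h1 : ((aeval x : MvPolynomial (Fin (N + 1)) ℂ →ₐ[ℂ] K).comp
      (aeval (fun i => ∑ j, C (h i j) * X j :
        Fin (N + 1) → MvPolynomial (Fin (N + 1)) ℂ))) = aeval (move h x) := by
    apply MvPolynomial.algHom_ext
    intro i
    simp [AlgHom.comp_apply, move]
  exact DFunLike.congr_fun h1 P

private lemma ltrans_move_move {N : ℕ} {g h : Matrix (Fin (N + 1)) (Fin (N + 1)) ℂ}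
    (hhg : h * g = 1) (x : Fin (N + 1) → K) : move h (move g x) = x := by
  funext i
  simp only [move, Finset.mul_sum]
  rw [Finset.sum_comm]
  have h3 : ∀ k, ∑ j, algebraMap ℂ K (h i j) * (algebraMap ℂ K (g j k) * x k) =
      algebraMap ℂ K ((h * g) i k) * x k := fun k => by
    rw [Matrix.mul_apply, map_sum, Finset.sum_mul]
    refine Finset.sum_congr rfl fun j _ => ?_
    rw [map_mul, mul_assoc]
  simp only [h3, hhg, Matrix.one_apply]
  rw [Finset.sum_eq_single i]
  · simp
  · intro b _ hb
    simp [Ne.symm hb]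
  · simp

private lemma ltrans_move_div {N : ℕ} (g : Matrix (Fin (N + 1)) (Fin (N + 1)) ℂ)
    (x : Fin (N + 1) → K) (s : K) : (fun i => move g x i / s) = move g fun i => x i / s := by
  funext i
  simp only [move, Finset.sum_div]
  exact Finset.sum_congr rfl fun j _ => by ring

private lemma ltrans_onBdry {N b k : ℕ} {g h : Matrix (Fin (N + 1)) (Fin (N + 1)) ℂ}
    (hhg : h * g = 1) {x : Fin (N + 1) → K}
    {H : Fin b → MvPolynomial (Fin (N + 1)) ℂ} (E : PrimeDivisorOver K k)
    (hB : OnBdry x H E) : OnBdry (move g x) (fun m => subst h (H m)) E := by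
  obtain ⟨s, hs, h1, ⟨i, h2⟩, m, h3⟩ := hB
  have hc : ∀ a : ℂ, 0 ≤ E.ord (algebraMap ℂ K a) := fun a => E.localRing.algebraMap_mem a
  have e1 : ∀ i, move g x i / s = move g (fun i => x i / s) i := fun i =>
    congrFun (ltrans_move_div g x s) i
  have e2 : (fun i => move g x i / s) = move g fun i => x i / s := ltrans_move_div g x s
  have h4 : ∀ i, 0 ≤ E.ord (move g x i / s) := by
    intro i
    rw [e1, move]
    exact E.localRing.sum_mem fun j _ => E.localRing.mul_mem (E.localRing.algebraMap_mem _) (h1 j)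
  refine ⟨s, hs, h4, ?_, m, ?_⟩
  · by_contra hcon
    push Not at hcon
    have h5 : ∀ i, 0 < E.ord (move g x i / s) := fun i =>
      lt_of_le_of_ne (h4 i) (hcon i).symm
    have h6 : (0 : WithTop ℤ) < E.ord (x i / s) := by
      have h7 : x i / s = ∑ j, algebraMap ℂ K (h i j) * (move g x j / s) := by
        have h8 := congrFun (ltrans_move_move hhg (fun i => x i / s)) i
        rw [← h8, move]
        refine Finset.sum_congr rfl fun j _ => ?_
        rw [← e1]
      rw [h7]
      refine AddValuation.map_lt_sum E.ord (g := 0) (by simp) fun j _ => ?_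
      rw [AddValuation.map_mul]
      exact lt_of_lt_of_le (h5 j) (le_add_of_nonneg_left (hc _))
    rw [h2] at h6
    exact lt_irrefl _ h6
  · rw [ltrans_aeval_subst, e2, ltrans_move_move hhg]
    exact h3

theorem onBdry_move {N b k : ℕ} {g h : Matrix (Fin (N + 1)) (Fin (N + 1)) ℂ} (hgh : g * h = 1)
    (hhg : h * g = 1) {x : Fin (N + 1) → K} {H : Fin b → MvPolynomial (Fin (N + 1)) ℂ}
    (E : PrimeDivisorOver K k) :
    OnBdry (move g x) (fun m => subst h (H m)) E ↔ OnBdry x H E := by
  constructor
  · intro hB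
    have h1 := ltrans_onBdry (g := h) (h := g) hgh E hB
    rw [ltrans_move_move hhg] at h1
    simpa only [ltrans_subst_subst hhg] using h1
  · exact ltrans_onBdry hhg E

private lemma ltrans_eval_subst {N : ℕ} (h : Matrix (Fin (N + 1)) (Fin (N + 1)) ℂ)
    (x : Fin (N + 1) → ℂ) (P : MvPolynomial (Fin (N + 1)) ℂ) :
    eval x (subst h P) = eval (h.mulVec x) P := by
  induction P using MvPolynomial.induction_on with
  | C a => simp [subst]
  | add p q hp hq =>
    have : subst h (p + q) = subst h p + subst h q := by simp [subst]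
    rw [this, map_add, map_add, hp, hq]
  | mul_X p i hp =>
    have h1 : subst h (p * X i) = subst h p * ∑ j, C (h i j) * X j := by simp [subst]
    rw [h1, map_mul, map_mul, hp, eval_X]
    congr 1
    simp [Matrix.mulVec, dotProduct]

private lemma ltrans_eval_pderiv_subst {N : ℕ} (h : Matrix (Fin (N + 1)) (Fin (N + 1)) ℂ)
    (x : Fin (N + 1) → ℂ) (P : MvPolynomial (Fin (N + 1)) ℂ) (j : Fin (N + 1)) :
    eval x (pderiv j (subst h P)) =
      ∑ i, eval (h.mulVec x) (pderiv i P) * h i j := by
  classical
  induction P using MvPolynomial.induction_on with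
  | C a => simp [subst]
  | add p q hp hq =>
    have : subst h (p + q) = subst h p + subst h q := by simp [subst]
    rw [this, map_add, map_add, hp, hq, ← Finset.sum_add_distrib]
    refine Finset.sum_congr rfl fun i _ => ?_
    rw [map_add, map_add, add_mul]
  | mul_X p i hp =>
    have h1 : subst h (p * X i) = subst h p * ∑ j, C (h i j) * X j := by simp [subst]
    have h2 : pderiv j (∑ j, C (h i j) * X j : MvPolynomial (Fin (N + 1)) ℂ) = C (h i j) := by
      rw [map_sum, Finset.sum_eq_single j]
      · simp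
      · intro b _ hb
        simp [pderiv_X_of_ne hb]
      · simp
    have h3 : eval x (∑ j, C (h i j) * X j : MvPolynomial (Fin (N + 1)) ℂ) = h.mulVec x i := by
      simp [Matrix.mulVec, dotProduct]
    rw [h1, Derivation.leibniz, h2, map_add, smul_eq_mul, smul_eq_mul, map_mul, map_mul, hp, h3,
      ltrans_eval_subst, eval_C]
    have h4 : ∀ k, eval (h.mulVec x) (pderiv k (p * X i)) * h k j =
        (if k = i then eval (h.mulVec x) p * h i j else 0) +
          h.mulVec x i * (eval (h.mulVec x) (pderiv k p) * h k j) := by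
      intro k
      rw [Derivation.leibniz, smul_eq_mul, smul_eq_mul, map_add, map_mul, map_mul, eval_X]
      split_ifs with hk
      · subst hk
        rw [pderiv_X_self, map_one]
        ring
      · rw [pderiv_X_of_ne (Ne.symm hk), map_zero]
        ring
    simp only [h4]
    rw [Finset.sum_add_distrib, ← Finset.mul_sum]
    simp

theorem smoothPair_subst {N c b : ℕ} {G : Fin c → MvPolynomial (Fin (N + 1)) ℂ}
    {H : Fin b → MvPolynomial (Fin (N + 1)) ℂ} (hsm : SmoothPair G H)
    {g h : Matrix (Fin (N + 1)) (Fin (N + 1)) ℂ} (hgh : g * h = 1) (hhg : h * g = 1) :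
    SmoothPair (fun l => subst h (G l)) (fun m => subst h (H m)) := by
  intro x hx hGx α β hβ hα
  have hy : h.mulVec x ≠ 0 := by
    intro h0
    apply hx
    have h1 := congrArg g.mulVec h0
    simpa [Matrix.mulVec_mulVec, hgh] using h1
  set V : Fin (N + 1) → ℂ := fun i => ∑ l, α l * eval (h.mulVec x) (pderiv i (G l)) +
    ∑ l, β l * eval (h.mulVec x) (pderiv i (H l)) with hV
  have h1 : Matrix.vecMul V h = 0 := by
    funext j
    have h2 := hα j
    simp only [ltrans_eval_pderiv_subst] at h2
    rw [Pi.zero_apply, ← h2]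
    simp only [Matrix.vecMul, dotProduct, hV, add_mul, Finset.sum_add_distrib, Finset.sum_mul,
      Finset.mul_sum]
    congr 1
    · rw [Finset.sum_comm]
      exact Finset.sum_congr rfl fun l _ => Finset.sum_congr rfl fun i _ => by ring
    · rw [Finset.sum_comm]
      exact Finset.sum_congr rfl fun l _ => Finset.sum_congr rfl fun i _ => by ring
  have h2 : V = 0 := by
    have h3 := congrArg (fun u => Matrix.vecMul u g) h1
    simpa [Matrix.vecMul_vecMul, hhg] using h3
  refine hsm (h.mulVec x) hy (fun l => ?_) α β (fun l hl => hβ l ?_) fun i => congrFun h2 i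
  · rw [← ltrans_eval_subst]
    exact hGx l
  · rw [ltrans_eval_subst]
    exact hl

end Pool.Agent.H17LG
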