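import Pool.Agent.H17LG.Point
import Pool.Agent.H17LG.ModLFREE
import Pool.Agent.H17LG.ModLCERT
import Pool.Agent.H17LG.ModLTRANS
import Pool.Agent.H17GT.Main

/-!
# Subvarieties of generic pairs are of log general type
-/

open MvPolynomial
open Pool.Agent.H23 (RatForm regularForms PrimeDivisorOver)
open Pool.Agent.H17GT
open Pool.Agent.H79.Log (SmoothPair)

noncomputable section

namespace Pool.Agent.H17LG

lemma isLogGeneralType_congr {K : Type} [Field K] [Algebra ℂ K] {k : ℕ}
    {B B' : PrimeDivisorOver K k → Prop} (h : ∀ E, B E ↔ B' E) (hB : IsLogGeneralType B) :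
    IsLogGeneralType B' := by
  have : B = B' := funext fun E => propext (h E)
  rwa [← this]

lemma append_homogeneous {N c b : ℕ} {d : Fin c → ℕ} {δ : Fin b → ℕ}
    {G : Fin c → MvPolynomial (Fin (N + 1)) ℂ} {H : Fin b → MvPolynomial (Fin (N + 1)) ℂ}
    (hG : ∀ l, (G l).IsHomogeneous (d l)) (hH : ∀ m, (H m).IsHomogeneous (δ m))
    (l : Fin (c + b)) : (Fin.append G H l).IsHomogeneous (Fin.append d δ l) := by
  refine Fin.addCases (fun i => ?_) (fun i => ?_) l
  · rw [Fin.append_left, Fin.append_left]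
    exact hG i
  · rw [Fin.append_right, Fin.append_right]
    exact hH i

lemma append_subst {N c b : ℕ} (h : Matrix (Fin (N + 1)) (Fin (N + 1)) ℂ)
    (G : Fin c → MvPolynomial (Fin (N + 1)) ℂ) (H : Fin b → MvPolynomial (Fin (N + 1)) ℂ) :
    (fun l => subst h (Fin.append G H l)) =
      Fin.append (fun l => subst h (G l)) fun m => subst h (H m) := by
  funext l
  refine Fin.addCases (fun i => ?_) (fun i => ?_) l
  · simp only [Fin.append_left]
  · simp only [Fin.append_right]

/-- **Logarithmic version of the theorem of Clemens, Ein, Voisin**: let `X` be a smooth complete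
intersection and `D` a boundary with normal crossings, given by forms with algebraically independent
coefficients with `∑ d + ∑ δ ≥ 2 N - c + 1`. Then all closed subvarieties of positive dimension of
`X ∖ D` are of log general type. -/
theorem allLogGeneralType_one {N c b : ℕ} {d : Fin c → ℕ} {δ : Fin b → ℕ} (hd : ∀ l, 1 ≤ d l)
    (hδ : ∀ m, 1 ≤ δ m) {G : Fin c → MvPolynomial (Fin (N + 1)) ℂ}
    {H : Fin b → MvPolynomial (Fin (N + 1)) ℂ} (hG : ∀ l, (G l).IsHomogeneous (d l))
    (hH : ∀ m, (H m).IsHomogeneous (δ m)) (hsm : SmoothPair G H)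
    (hgc : GenericCoefficients (Fin.append d δ) (Fin.append G H))
    (hdeg : 2 * N + 1 ≤ ∑ l, d l + c + ∑ m, δ m) : AllLogGeneralType G H 1 := by
  intro P _ _ hGP hHP k hk hz
  obtain ⟨z, hz⟩ := hz
  obtain ⟨k, rfl⟩ : ∃ k', k = k' + 1 := ⟨k - 1, by omega⟩
  haveI := essFiniteType_functionField P
  obtain ⟨x, hx, hgen, hgen', hFx, hx0, hxr⟩ := exists_point_log P z hz
  obtain ⟨g, h, hgh, hhg, h₁, h₂⟩ := exists_free (append_homogeneous hG hH) hgc hgen'
  rw [append_subst] at h₁
  obtain ⟨hx', hgen''⟩ := adjoin_move hhg hx hgen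
  refine isLogGeneralType_congr (fun E => (onBdry_move hgh hhg E).trans
    (onBdry_iff P hH hx0 hxr E)) ?_
  refine isLogGeneralType_of_free (d := d) (δ := δ) (G := fun l => subst h (G l))
    (H := fun m => subst h (H m)) hd hδ (fun l => subst_homogeneous h (hG l))
    (fun m => subst_homogeneous h (hH m))
    (pairCertificate_of_smoothPair (smoothPair_subst hsm hgh hhg)) hx'
    hgen'' (fun l => ?_) (fun m => ?_) hz h₁ h₂ hdeg
  · rw [aeval_subst hhg]
    exact (hFx _ _ (hG l)).2 (hGP l)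
  · rw [aeval_subst hhg]
    exact fun h0 => hHP m ((hFx _ _ (hH m)).1 h0)

/-- The pairs with ample log canonical bundle are of log general type. -/
theorem allLogGeneralType_top {n c b : ℕ} {d : Fin c → ℕ} {δ : Fin b → ℕ} (hd : ∀ l, 1 ≤ d l)
    {G : Fin c → MvPolynomial (Fin (n + 1 + c + 1)) ℂ}
    {H : Fin b → MvPolynomial (Fin (n + 1 + c + 1)) ℂ} (hG : ∀ l, (G l).IsHomogeneous (d l))
    (hH : ∀ m, (H m).IsHomogeneous (δ m)) (hsm : SmoothPair G H)
    (hdeg : n + c + 3 ≤ ∑ l, d l + ∑ m, δ m) : AllLogGeneralType G H (n + 1) := by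
  intro P _ _ hGP hHP k hk hz
  obtain ⟨z, hz⟩ := hz
  obtain ⟨k, rfl⟩ : ∃ k', k = k' + 1 := ⟨k - 1, by omega⟩
  haveI := essFiniteType_functionField P
  obtain ⟨x, hx, hgen, hgen', hFx, hx0, hxr⟩ := exists_point_log P z hz
  refine isLogGeneralType_congr (onBdry_iff P hH hx0 hxr) ?_
  exact isLogGeneralType_of_top hd hG hH (pairCertificate_of_smoothPair hsm) hx hgen
    (fun l => (hFx _ _ (hG l)).2 (hGP l)) (fun m h0 => hHP m ((hFx _ _ (hH m)).1 h0)) (by omega)
    hz hdeg

/-- Generic pairs near a given one. -/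
theorem exists_genericPair_near {N c b : ℕ} {d : Fin c → ℕ} {δ : Fin b → ℕ}
    {G₀ : Fin c → MvPolynomial (Fin (N + 1)) ℂ} {H₀ : Fin b → MvPolynomial (Fin (N + 1)) ℂ}
    (hG₀ : ∀ l, (G₀ l).IsHomogeneous (d l)) (hH₀ : ∀ m, (H₀ m).IsHomogeneous (δ m)) {ε : ℝ}
    (hε : 0 < ε) :
    ∃ (G : Fin c → MvPolynomial (Fin (N + 1)) ℂ) (H : Fin b → MvPolynomial (Fin (N + 1)) ℂ),
      (∀ l, (G l).IsHomogeneous (d l)) ∧ (∀ m, (H m).IsHomogeneous (δ m)) ∧
      (∀ l m, ‖(G l).coeff m - (G₀ l).coeff m‖ < ε) ∧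
      (∀ l m, ‖(H l).coeff m - (H₀ l).coeff m‖ < ε) ∧
      GenericCoefficients (Fin.append d δ) (Fin.append G H) := by
  obtain ⟨F, hF, hFn, hFg⟩ := exists_generic_near (append_homogeneous hG₀ hH₀) hε
  refine ⟨fun l => F (Fin.castAdd b l), fun m => F (Fin.natAdd c m), fun l => ?_, fun m => ?_,
    fun l m => ?_, fun l m => ?_, ?_⟩
  · have := hF (Fin.castAdd b l)
    rwa [Fin.append_left] at this
  · have := hF (Fin.natAdd c m)
    rwa [Fin.append_right] at this
  · have := hFn (Fin.castAdd b l) m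
    rwa [Fin.append_left] at this
  · have := hFn (Fin.natAdd c l) m
    rwa [Fin.append_right] at this
  · have h1 : Fin.append (fun l => F (Fin.castAdd b l)) (fun m => F (Fin.natAdd c m)) = F :=
      Fin.append_castAdd_natAdd
    rw [h1]
    exact hFg

end Pool.Agent.H17LG
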