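import Pool.Agent.H17LG.ModLREG
import Pool.Agent.H17GT.ModDERAE

/-!
# Logarithmically good derivations
-/

open MvPolynomial
open Pool.Agent.H23 (RatForm regularForms PrimeDivisorOver)
open Pool.Agent.H17GT

noncomputable section

namespace Pool.Agent.H17LG

variable {K : Type} [Field K] [Algebra ℂ K]

theorem good_of_logGood {N b k : ℕ} {x : Fin (N + 1) → K}
    {H : Fin b → MvPolynomial (Fin (N + 1)) ℂ} {w : ℕ} {D' : Derivation ℤ K K}
    (h : LogGood k x H w D') : Good k x w D' := by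
  intro E s hs hx
  obtain ⟨D'', γ, h1, _, h3⟩ := h E s hs hx
  exact ⟨D'', γ, fun f hf => hf.trans (h1 f), h3⟩

/-- If `D` multiplies all coefficients of `G` by `a`, then so does its value at `x`. -/
theorem coefEval_of_const_mul {σ : Type*} (x : σ → K) (G : MvPolynomial σ ℂ) (φ : ℂ → K)
    {D : Derivation ℤ ℂ ℂ} (hφ : ∀ c : ℂ, φ c = algebraMap ℂ K (D c)) {a : ℂ}
    (ha : ∀ μ, D (G.coeff μ) = a * G.coeff μ) :
    coefEval φ x G = algebraMap ℂ K a * aeval x G := by
  unfold coefEval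
  rw [aeval_def, eval₂_eq, Finset.mul_sum]
  refine Finset.sum_congr rfl fun μ _ => ?_
  rw [hφ, ha μ, map_mul, mul_assoc]
  rfl

/-- The action of `D` on the coefficients of each `H m` is multiplication by a constant. -/
theorem logGood_of_ext [Algebra.EssFiniteType ℂ K] {N b k : ℕ} {z : Fin (k + 1) → K}
    (hz : IsTranscendenceBasis ℂ z) (x : Fin (N + 1) → K)
    (H : Fin b → MvPolynomial (Fin (N + 1)) ℂ) {D : Derivation ℤ ℂ ℂ}
    {D' : Derivation ℤ K K} (hD : Ext D D')
    (hH : ∀ m, ∃ a : ℂ, ∀ μ, D ((H m).coeff μ) = a * (H m).coeff μ) :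
    LogGood (k + 1) x H 0 D' := by
  intro E s hs hx
  obtain ⟨D'', h1, h2⟩ := exists_ext_logRegular hz E D
  refine ⟨D'', overC (D' - D'') fun c => ?_, h2, fun m => ?_, fun f => ?_⟩
  · rw [Derivation.sub_apply, hD c, h1 c, sub_self]
  · obtain ⟨a, ha⟩ := hH m
    rw [coefEval_of_const_mul (fun i => x i / s) (H m) _ h1 ha, AddValuation.map_mul]
    exact le_add_of_nonneg_left (E.ord_const a)
  · rw [overC_apply, Derivation.sub_apply, pow_zero, one_mul, add_sub_cancel]

theorem logGood_of_ext_pair [Algebra.EssFiniteType ℂ K] {N b k : ℕ} {z : Fin (k + 1) → K}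
    (hz : IsTranscendenceBasis ℂ z) (x : Fin (N + 1) → K)
    (H : Fin b → MvPolynomial (Fin (N + 1)) ℂ) {D₁ D₂ : Derivation ℤ ℂ ℂ}
    {D₁' D₂' : Derivation ℤ K K} (h₁ : Ext D₁ D₁') (h₂ : Ext D₂ D₂') (p q : Fin (N + 1))
    (hH : ∀ m (y : Fin (N + 1) → K), y p * coefEval (fun a => algebraMap ℂ K (D₁ a)) y (H m) -
      y q * coefEval (fun a => algebraMap ℂ K (D₂ a)) y (H m) = 0) :
    LogGood (k + 1) x H 1 (x p • D₁' - x q • D₂') := by
  intro E s hs hx
  obtain ⟨D₁'', e1, r1⟩ := exists_ext_logRegular hz E D₁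
  obtain ⟨D₂'', e2, r2⟩ := exists_ext_logRegular hz E D₂
  have hc1 : ∀ c : ℂ, (D₁' - D₁'') (algebraMap ℂ K c) = 0 := fun c => by
    rw [Derivation.sub_apply, h₁ c, e1 c, sub_self]
  have hc2 : ∀ c : ℂ, (D₂' - D₂'') (algebraMap ℂ K c) = 0 := fun c => by
    rw [Derivation.sub_apply, h₂ c, e2 c, sub_self]
  refine ⟨(x p / s) • D₁'' - (x q / s) • D₂'',
    (x p / s) • overC _ hc1 - (x q / s) • overC _ hc2, fun f => ?_, fun m => ?_, fun f => ?_⟩
  · rw [Derivation.sub_apply, Derivation.smul_apply, Derivation.smul_apply, smul_eq_mul,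
      smul_eq_mul]
    have a1 : E.ord f ≤ E.ord (x p / s * D₁'' f) := by
      rw [AddValuation.map_mul]
      exact (r1 f).trans (le_add_of_nonneg_left (hx p))
    have a2 : E.ord f ≤ E.ord (x q / s * D₂'' f) := by
      rw [AddValuation.map_mul]
      exact (r2 f).trans (le_add_of_nonneg_left (hx q))
    exact le_trans (le_min a1 a2) (E.ord.map_sub _ _)
  · have h0 : coefEval (fun a => ((x p / s) • D₁'' - (x q / s) • D₂'') (algebraMap ℂ K a))
        (fun i => x i / s) (H m) = 0 := by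
      rw [← hH m fun i => x i / s]
      unfold coefEval
      rw [Finset.mul_sum, Finset.mul_sum, ← Finset.sum_sub_distrib]
      refine Finset.sum_congr rfl fun μ _ => ?_
      beta_reduce
      rw [Derivation.sub_apply, Derivation.smul_apply, Derivation.smul_apply, smul_eq_mul,
        smul_eq_mul, e1, e2]
      ring
    rw [h0, AddValuation.map_zero]
    exact le_top
  · simp only [Derivation.sub_apply, Derivation.smul_apply, smul_eq_mul, overC_apply, pow_one]
    field_simp
    ring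

end Pool.Agent.H17LG
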