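import Pool.Agent.H17LG.ModLDER
import Pool.Agent.H17GT.ModEXT
import Pool.Agent.H17GT.ModKOSZUL
import Pool.Agent.H17GT.ModDESC

/-!
# The kernel of the Jacobian is spanned by logarithmically good derivations
-/

open MvPolynomial
open Pool.Agent.H23 (RatForm regularForms PrimeDivisorOver)
open Pool.Agent.H17GT

noncomputable section

namespace Pool.Agent.H17LG

variable {K : Type} [Field K] [Algebra ℂ K]

private theorem der_sum_apply {A : Type} [CommRing A] {ι : Type*} (s : Finset ι)
    (F : ι → Derivation ℤ A A) (a : A) : (∑ i ∈ s, F i) a = ∑ i ∈ s, F i a := by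
  classical
  induction s using Finset.induction_on with
  | empty => simp
  | insert i s hi ih =>
    rw [Finset.sum_insert hi, Finset.sum_insert hi, Derivation.add_apply, ih]

private theorem jac_apply' {N c : ℕ} (G : Fin c → MvPolynomial (Fin (N + 1)) ℂ)
    (x v : Fin (N + 1) → K) (l : Fin c) :
    jac G x v l = ∑ i, aeval x (pderiv i (G l)) * v i := by
  unfold jac
  rw [Matrix.mulVecLin_apply]
  rfl

private theorem jac_der {N c : ℕ} {G : Fin c → MvPolynomial (Fin (N + 1)) ℂ}
    {x : Fin (N + 1) → K} (hGx : ∀ l, aeval x (G l) = 0) (V : Derivation ℤ K K) (l : Fin c) :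
    jac G x (fun i => V (x i)) l = - coefEval (fun a => V (algebraMap ℂ K a)) x (G l) := by
  have h1 := der_aeval V x (G l)
  rw [hGx l, map_zero] at h1
  rw [jac_apply', eq_neg_iff_add_eq_zero, add_comm]
  exact h1.symm

/-- Integral derivations of `K` which are `K`-combinations of extensions of derivations of `ℂ`. -/
private def Lifts (K : Type) [Field K] [Algebra ℂ K] : Submodule K (Derivation ℤ K K) :=
  Submodule.span K {F | ∃ D : Derivation ℤ ℂ ℂ, Ext D F}

omit [Algebra ℂ K] in
private theorem coefEval_congr {N : ℕ} {φ : ℂ → K} {x : Fin (N + 1) → K}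
    {G : MvPolynomial (Fin (N + 1)) ℂ} {ψ : (Fin (N + 1) →₀ ℕ) → K}
    (h : ∀ m, φ (G.coeff m) = ψ m) (h0 : φ 0 = 0) {S : Finset (Fin (N + 1) →₀ ℕ)}
    (hS : ∀ m, m ∉ S → ψ m = 0) :
    coefEval φ x G = ∑ m ∈ S, ψ m * m.prod fun i e => x i ^ e := by
  classical
  rw [coefEval_eq_sum h0 x G (S := G.support ∪ S) Finset.subset_union_left]
  rw [Finset.sum_congr rfl fun m _ => by rw [h m]]
  symm
  refine Finset.sum_subset Finset.subset_union_right fun m _ hm => ?_
  rw [hS m hm, zero_mul]

/-- The action of a derivation on the coefficients of `P`, evaluated at `x`. -/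
private def coefLin {N : ℕ} (x : Fin (N + 1) → K) (P : MvPolynomial (Fin (N + 1)) ℂ) :
    Derivation ℤ K K →ₗ[K] K where
  toFun V := coefEval (fun a => V (algebraMap ℂ K a)) x P
  map_add' V W := by
    unfold coefEval
    rw [← Finset.sum_add_distrib]
    refine Finset.sum_congr rfl fun m _ => ?_
    beta_reduce
    rw [Derivation.add_apply, add_mul]
  map_smul' a V := by
    unfold coefEval
    rw [RingHom.id_apply, smul_eq_mul, Finset.mul_sum]
    refine Finset.sum_congr rfl fun m _ => ?_
    beta_reduce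
    rw [Derivation.smul_apply, smul_eq_mul, mul_assoc]

private theorem coefLin_apply {N : ℕ} (x : Fin (N + 1) → K) (P : MvPolynomial (Fin (N + 1)) ℂ)
    (V : Derivation ℤ K K) :
    coefLin x P V = coefEval (fun a => V (algebraMap ℂ K a)) x P := rfl

omit [Algebra ℂ K] in
private theorem prod_single_add {N : ℕ} (y : Fin (N + 1) → K) (M : Fin (N + 1) →₀ ℕ)
    (r : Fin (N + 1)) : (M + Finsupp.single r 1).prod (fun i e => y i ^ e) =
      (M.prod fun i e => y i ^ e) * y r := by
  rw [Finsupp.prod_add_index' (h := fun i e => y i ^ e) (fun i => pow_zero _)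
    (fun i a b => pow_add _ _ _),
    Finsupp.prod_single_index (h := fun i e => y i ^ e) (pow_zero _), pow_one]

theorem mem_logSpan_of_mem_ker [Algebra.EssFiniteType ℂ K] {N c b k : ℕ} {d : Fin c → ℕ}
    {δ : Fin b → ℕ} (hd : ∀ l, 1 ≤ d l) (hδ : ∀ m, 1 ≤ δ m)
    {G : Fin c → MvPolynomial (Fin (N + 1)) ℂ} {H : Fin b → MvPolynomial (Fin (N + 1)) ℂ}
    (hG : ∀ l, (G l).IsHomogeneous (d l)) (hH : ∀ m, (H m).IsHomogeneous (δ m))
    {x : Fin (N + 1) → K} (hx : x ≠ 0)
    (hGx : ∀ l, aeval x (G l) = 0) (hHx : ∀ m, aeval x (H m) ≠ 0) {z : Fin (k + 1) → K}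
    (hz : IsTranscendenceBasis ℂ z) (h₁ : FreeCoefficients (Fin.append d δ) (Fin.append G H))
    (h₂ : FreeMotions x) (τ : Fin (N + 1) → K) (hτ : jac G x τ = 0) :
    τ ∈ Submodule.span K {v : Fin (N + 1) → K | ∃ (w : ℕ) (D' : Derivation ℤ K K), w ≤ 1 ∧
      LogGood (k + 1) x H w D' ∧ jac G x (fun i => D' (x i)) = 0 ∧ v = fun i => D' (x i)} := by
  classical
  set T := Submodule.span K {v : Fin (N + 1) → K | ∃ (w : ℕ) (D' : Derivation ℤ K K), w ≤ 1 ∧
      LogGood (k + 1) x H w D' ∧ jac G x (fun i => D' (x i)) = 0 ∧ v = fun i => D' (x i)} with hT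
  -- all forms
  set P : Fin (c + b) → MvPolynomial (Fin (N + 1)) ℂ := Fin.append G H with hP
  set π : Fin (c + b) → ℕ := Fin.append d δ with hπ
  have hPG : ∀ l, P (Fin.castAdd b l) = G l := fun l => Fin.append_left G H l
  have hPH : ∀ m, P (Fin.natAdd c m) = H m := fun m => Fin.append_right G H m
  have hπ1 : ∀ l, 1 ≤ π l := by
    intro l
    refine Fin.addCases (fun l => ?_) (fun m => ?_) l
    · rw [hπ, Fin.append_left]
      exact hd l
    · rw [hπ, Fin.append_right]
      exact hδ m
  have hPhom : ∀ l, (P l).IsHomogeneous (π l) := by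
    intro l
    refine Fin.addCases (fun l => ?_) (fun m => ?_) l
    · rw [hπ, hP, Fin.append_left, Fin.append_left]
      exact hG l
    · rw [hπ, hP, Fin.append_right, Fin.append_right]
      exact hH m
  obtain ⟨j, hj⟩ : ∃ j, x j ≠ 0 := by
    by_contra hcon
    push Not at hcon
    exact hx (funext hcon)
  -- extensions of derivations
  have hext : ∀ D : Derivation ℤ ℂ ℂ, ∃ F : Derivation ℤ K K, Ext D F := by
    intro D
    have h1 : AlgebraicIndependent ℂ (fun e : Empty => (e.elim : K)) :=
      algebraicIndependent_empty_type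
    obtain ⟨F, hF, -⟩ := exists_ext_values h1 D (fun e => e.elim)
    exact ⟨F, hF⟩
  -- the derivation `E0` with `E0 x = τ`
  choose DD DD' hDD hDDx using fun i => h₂ i j
  let E0 : Derivation ℤ K K := ∑ i, (τ i / x j) • DD' i
  have hE0x : ∀ i, E0 (x i) = τ i := by
    intro i
    have h1 : E0 (x i) = ∑ i', (τ i' / x j) * (DD' i' (x i)) := by
      simp only [E0, der_sum_apply, Derivation.smul_apply, smul_eq_mul]
    rw [h1, Finset.sum_eq_single i]
    · rw [hDDx, if_pos rfl]
      field_simp
    · intro i' _ hne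
      rw [hDDx, if_neg (Ne.symm hne), mul_zero]
    · intro h
      exact absurd (Finset.mem_univ _) h
  have hE0 : E0 ∈ Lifts K := by
    refine Submodule.sum_mem _ fun i _ => Submodule.smul_mem _ _ ?_
    exact Submodule.subset_span ⟨DD i, hDD i⟩
  -- values on the coefficients
  have hcoef0 : ∀ V : Derivation ℤ K K, (fun a : ℂ => V (algebraMap ℂ K a)) 0 = 0 := by
    intro V
    simp
  have hdeg : ∀ l m, coeff m (P l) ≠ 0 → Finsupp.degree m = π l := by
    intro l m hm
    have h1 := hPhom l hm
    rw [← h1, Finsupp.degree_eq_weight_one]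
    rfl
  -- the derivations which scale one boundary form
  have hscale : ∀ m₀ : Fin b, ∃ (D : Derivation ℤ ℂ ℂ) (F : Derivation ℤ K K), Ext D F ∧
      ∀ l m, D ((P l).coeff m) = if l = Fin.natAdd c m₀ then (P l).coeff m else 0 := by
    intro m₀
    have h1 : ∀ μ : Fin (N + 1) →₀ ℕ, ∃ D : Derivation ℤ ℂ ℂ, coeff μ (P (Fin.natAdd c m₀)) ≠ 0 →
        ∀ l' m', D ((P l').coeff m') = if l' = Fin.natAdd c m₀ ∧ m' = μ then 1 else 0 := by
      intro μ
      by_cases hμ : coeff μ (P (Fin.natAdd c m₀)) ≠ 0
      · obtain ⟨D, hD⟩ := h₁ _ _ (hdeg _ _ hμ)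
        exact ⟨D, fun _ => hD⟩
      · exact ⟨0, fun h => absurd h hμ⟩
    choose Dμ hDμ using h1
    obtain ⟨F, hF⟩ := hext (∑ μ ∈ (P (Fin.natAdd c m₀)).support,
      coeff μ (P (Fin.natAdd c m₀)) • Dμ μ)
    refine ⟨_, F, hF, fun l m => ?_⟩
    rw [der_sum_apply]
    simp only [Derivation.smul_apply, smul_eq_mul]
    rw [Finset.sum_congr rfl fun μ hμ => by rw [hDμ μ (mem_support_iff.1 hμ) l m]]
    by_cases hl : l = Fin.natAdd c m₀
    · rw [if_pos hl, hl]
      simp only [true_and, mul_ite, mul_one, mul_zero]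
      rw [Finset.sum_ite_eq (P (Fin.natAdd c m₀)).support m]
      split_ifs with hm
      · rfl
      · exact (notMem_support_iff.1 hm).symm
    · rw [if_neg hl]
      simp [hl]
  choose SD SF hSF hSD using hscale
  have hSFcoef : ∀ m₀ l m, SF m₀ (algebraMap ℂ K ((P l).coeff m)) =
      if l = Fin.natAdd c m₀ then algebraMap ℂ K ((P l).coeff m) else 0 := by
    intro m₀ l m
    rw [hSF m₀, hSD]
    split_ifs
    · rfl
    · rw [map_zero]
  have hSFlin : ∀ m₀ l, coefLin x (P l) (SF m₀) =
      if l = Fin.natAdd c m₀ then aeval x (P l) else 0 := by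
    intro m₀ l
    rw [coefLin_apply]
    by_cases hl : l = Fin.natAdd c m₀
    · rw [if_pos hl, aeval_def, eval₂_eq]
      unfold coefEval
      refine Finset.sum_congr rfl fun μ _ => ?_
      beta_reduce
      rw [hSFcoef, if_pos hl]
      rfl
    · rw [if_neg hl]
      unfold coefEval
      refine Finset.sum_eq_zero fun μ _ => ?_
      beta_reduce
      rw [hSFcoef, if_neg hl, zero_mul]
  have hne : ∀ (l : Fin c) (m : Fin b), Fin.castAdd b l ≠ Fin.natAdd c m := by
    intro l m h
    have h1 := congrArg Fin.val h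
    rw [Fin.val_castAdd, Fin.val_natAdd] at h1
    have := l.2
    omega
  have hne' : ∀ (m m' : Fin b), Fin.natAdd c m = Fin.natAdd c m' ↔ m = m' := by
    intro m m'
    constructor
    · intro h
      have h1 := congrArg Fin.val h
      rw [Fin.val_natAdd, Fin.val_natAdd] at h1
      exact Fin.ext (by omega)
    · rintro rfl
      rfl
  have hSFT : ∀ m₀, (fun i => SF m₀ (x i)) ∈ T := by
    intro m₀
    refine Submodule.subset_span ⟨0, SF m₀, by omega, logGood_of_ext hz x H (hSF m₀) fun m => ?_,
      ?_, rfl⟩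
    · refine ⟨if m = m₀ then 1 else 0, fun μ => ?_⟩
      rw [← hPH m, hSD]
      by_cases hm : m = m₀
      · rw [if_pos ((hne' _ _).2 hm), if_pos hm, one_mul]
      · rw [if_neg (fun h => hm ((hne' _ _).1 h)), if_neg hm, zero_mul]
    · funext l
      rw [jac_der hGx, ← coefLin_apply, ← hPG l, hSFlin, if_neg (hne l m₀), neg_zero]
      rfl
  -- the derivation `E1`
  let ρ : Fin b → K := fun m => coefLin x (H m) E0 / aeval x (H m)
  let E1 : Derivation ℤ K K := E0 - ∑ m, ρ m • SF m
  have hE1 : E1 ∈ Lifts K := Submodule.sub_mem _ hE0 (Submodule.sum_mem _ fun m _ =>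
    Submodule.smul_mem _ _ (Submodule.subset_span ⟨SD m, hSF m⟩))
  have hE1lin : ∀ l, coefLin x (P l) E1 = 0 := by
    intro l
    have h1 : coefLin x (P l) E1 = coefLin x (P l) E0 - ∑ m, ρ m * coefLin x (P l) (SF m) := by
      simp only [E1, map_sub, map_sum, map_smul, smul_eq_mul]
    rw [h1]
    refine Fin.addCases (fun l => ?_) (fun m => ?_) l
    · rw [Finset.sum_eq_zero fun m _ => by rw [hSFlin, if_neg (hne l m), mul_zero], sub_zero,
        hPG, coefLin_apply]
      have h2 := jac_der hGx E0 l
      have h3 : (fun i => E0 (x i)) = τ := funext hE0x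
      rw [h3, hτ, Pi.zero_apply] at h2
      exact neg_eq_zero.1 h2.symm
    · rw [Finset.sum_eq_single m]
      · rw [hSFlin, if_pos rfl, hPH]
        simp only [ρ]
        rw [div_mul_cancel₀ _ (hHx m), sub_self]
      · intro m' _ hm'
        rw [hSFlin, if_neg (fun h => hm' ((hne' _ _).1 h).symm), mul_zero]
      · intro h
        exact absurd (Finset.mem_univ _) h
  -- the correction terms
  have hcorr : ∀ l, ∀ g ∈ Submodule.span K {g : MvPolynomial (Fin (N + 1)) K |
      ∃ (M : Fin (N + 1) →₀ ℕ) (p q : Fin (N + 1)), M.degree + 1 = π l ∧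
        g = monomial (M + Finsupp.single q 1) (x p) - monomial (M + Finsupp.single p 1) (x q)},
      ∃ V : Derivation ℤ K K, V ∈ Lifts K ∧
        (∀ l' m', V (algebraMap ℂ K ((P l').coeff m')) = if l' = l then coeff m' g else 0) ∧
        (fun i => V (x i)) ∈ T := by
    intro l g hg
    induction hg using Submodule.span_induction with
    | mem g hg =>
      obtain ⟨M, p, q, hM, rfl⟩ := hg
      have hq : Finsupp.degree (M + Finsupp.single q 1) = π l := by
        rw [map_add]
        simpa using hM
      have hp : Finsupp.degree (M + Finsupp.single p 1) = π l := by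
        rw [map_add]
        simpa using hM
      obtain ⟨D1, hD1⟩ := h₁ l _ hq
      obtain ⟨D2, hD2⟩ := h₁ l _ hp
      obtain ⟨F1, hF1⟩ := hext D1
      obtain ⟨F2, hF2⟩ := hext D2
      have hval : ∀ l' m', (x p • F1 - x q • F2) (algebraMap ℂ K ((P l').coeff m')) =
          if l' = l then coeff m' (monomial (M + Finsupp.single q 1) (x p) -
            monomial (M + Finsupp.single p 1) (x q) : MvPolynomial (Fin (N + 1)) K) else 0 := by
        intro l' m'
        rw [Derivation.sub_apply, Derivation.smul_apply, Derivation.smul_apply, hF1, hF2, hD1,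
          hD2, coeff_sub, coeff_monomial, coeff_monomial]
        by_cases hl : l' = l
        · simp only [hl, true_and, if_true]
          by_cases hm1 : m' = M + Finsupp.single q 1
          · by_cases hm2 : m' = M + Finsupp.single p 1
            · simp [hm1.symm, hm2.symm]
            · simp [hm1.symm, hm2, Ne.symm hm2]
          · by_cases hm2 : m' = M + Finsupp.single p 1
            · simp [hm1, hm2.symm, Ne.symm hm1]
            · simp [hm1, hm2, Ne.symm hm1, Ne.symm hm2]
        · simp [hl]
      -- the values of the two derivations at the forms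
      have hev : ∀ (D : Derivation ℤ ℂ ℂ) (r : Fin (N + 1)) (_ : ∀ l' m', D ((P l').coeff m') =
          if l' = l ∧ m' = M + Finsupp.single r 1 then 1 else 0) (y : Fin (N + 1) → K) (l' : _),
          coefEval (fun a => algebraMap ℂ K (D a)) y (P l') =
            if l' = l then (M.prod fun i e => y i ^ e) * y r else 0 := by
        intro D r hD y l'
        rw [coefEval_congr (ψ := fun m => if l' = l ∧ m = M + Finsupp.single r 1 then 1 else 0)
          (S := {M + Finsupp.single r 1}) (fun m => ?_) (by simp) (fun m hm => ?_)]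
        · rw [Finset.sum_singleton, prod_single_add]
          by_cases hl : l' = l
          · simp [hl]
          · simp [hl]
        · rw [hD]
          split_ifs
          · rw [map_one]
          · rw [map_zero]
        · rw [Finset.mem_singleton] at hm
          simp [hm]
      refine ⟨x p • F1 - x q • F2, ?_, hval, ?_⟩
      · exact Submodule.sub_mem _ (Submodule.smul_mem _ _ (Submodule.subset_span ⟨D1, hF1⟩))
          (Submodule.smul_mem _ _ (Submodule.subset_span ⟨D2, hF2⟩))
      · refine Submodule.subset_span ⟨1, x p • F1 - x q • F2, le_refl _,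
          logGood_of_ext_pair hz x H hF1 hF2 p q (fun m y => ?_), ?_, rfl⟩
        · rw [← hPH m, hev D1 q hD1, hev D2 p hD2]
          split_ifs
          · ring
          · ring
        · funext l'
          rw [jac_der hGx, ← coefLin_apply]
          have h1 : coefLin x (G l') (x p • F1 - x q • F2) =
              x p * coefLin x (G l') F1 - x q * coefLin x (G l') F2 := by
            simp only [map_sub, map_smul, smul_eq_mul]
          have h2 : ∀ (D : Derivation ℤ ℂ ℂ) (F : Derivation ℤ K K), Ext D F →
              coefLin x (G l') F = coefEval (fun a => algebraMap ℂ K (D a)) x (G l') := by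
            intro D F hF
            rw [coefLin_apply]
            unfold coefEval
            exact Finset.sum_congr rfl fun μ _ => by
              beta_reduce
              rw [hF]
          rw [h1, h2 D1 F1 hF1, h2 D2 F2 hF2, ← hPG l', hev D1 q hD1, hev D2 p hD2]
          rw [Pi.zero_apply]
          split_ifs
          · ring
          · ring
    | zero =>
      refine ⟨0, Submodule.zero_mem _, fun l' m' => by simp, ?_⟩
      have h1 : (fun i => (0 : Derivation ℤ K K) (x i)) = 0 := by
        funext i
        rfl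
      rw [h1]
      exact T.zero_mem
    | add g g' _ _ ih ih' =>
      obtain ⟨V, hV1, hV2, hV3⟩ := ih
      obtain ⟨V', hV1', hV2', hV3'⟩ := ih'
      refine ⟨V + V', Submodule.add_mem _ hV1 hV1', fun l' m' => ?_, ?_⟩
      · rw [Derivation.add_apply, hV2, hV2']
        split_ifs
        · rw [coeff_add]
        · rw [add_zero]
      · exact T.add_mem hV3 hV3'
    | smul a g _ ih =>
      obtain ⟨V, hV1, hV2, hV3⟩ := ih
      refine ⟨a • V, Submodule.smul_mem _ _ hV1, fun l' m' => ?_, ?_⟩
      · rw [Derivation.smul_apply, hV2]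
        split_ifs
        · rw [coeff_smul]
        · rw [smul_zero]
      · exact T.smul_mem a hV3
  -- the forms `f l`
  let f : Fin (c + b) → MvPolynomial (Fin (N + 1)) K := fun l =>
    ∑ m ∈ (P l).support, monomial m (E1 (algebraMap ℂ K ((P l).coeff m)))
  have hfcoeff : ∀ l m, coeff m (f l) = E1 (algebraMap ℂ K ((P l).coeff m)) := by
    intro l m
    simp only [f]
    rw [coeff_sum]
    by_cases hm : m ∈ (P l).support
    · rw [Finset.sum_eq_single m]
      · rw [coeff_monomial, if_pos rfl]
      · intro m' _ hne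
        rw [coeff_monomial, if_neg hne]
      · intro h
        exact absurd hm h
    · rw [Finset.sum_eq_zero]
      · rw [notMem_support_iff.1 hm, map_zero, map_zero]
      · intro m' hm'
        rw [coeff_monomial, if_neg]
        rintro rfl
        exact hm hm'
  have hfhom : ∀ l, (f l).IsHomogeneous (π l) := by
    intro l
    refine IsHomogeneous.sum _ _ _ fun m hm => ?_
    exact isHomogeneous_monomial _ (hdeg l m (mem_support_iff.1 hm))
  have hfev : ∀ l, eval x (f l) = 0 := by
    intro l
    have h1 : eval x (f l) = coefLin x (P l) E1 := by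
      simp only [f]
      rw [map_sum, coefLin_apply]
      unfold coefEval
      refine Finset.sum_congr rfl fun m _ => ?_
      rw [eval_monomial]
    rw [h1, hE1lin l]
  choose V hV1 hV2 hV3 using fun l =>
    hcorr l (f l) (mem_koszul x hx (hπ1 l) (f l) (hfhom l) (hfev l))
  -- the derivation `E2`
  let E2 : Derivation ℤ K K := E1 - ∑ l, V l
  have hE2 : E2 ∈ Lifts K := Submodule.sub_mem _ hE1 (Submodule.sum_mem _ fun l _ => hV1 l)
  have hE2coef : ∀ l m, E2 (algebraMap ℂ K ((P l).coeff m)) = 0 := by
    intro l m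
    change (E1 - ∑ l, V l) (algebraMap ℂ K ((P l).coeff m)) = 0
    rw [Derivation.sub_apply, der_sum_apply Finset.univ V,
      Finset.sum_congr rfl fun l' _ => hV2 l' l m]
    rw [Finset.sum_ite_eq Finset.univ l, if_pos (Finset.mem_univ _), hfcoeff, sub_self]
  obtain ⟨n, κ, F, hF⟩ := Submodule.mem_span_set'.1 hE2
  choose D hD using fun i => (F i).2
  have hrel : ∀ a : Fin (c + b) × (Fin (N + 1) →₀ ℕ),
      ∑ i, κ i * algebraMap ℂ K (D i ((P a.1).coeff a.2)) = 0 := by
    rintro ⟨l, m⟩
    have h1 := hE2coef l m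
    rw [← hF, der_sum_apply] at h1
    rw [← h1]
    refine Finset.sum_congr rfl fun i _ => ?_
    rw [Derivation.smul_apply, hD i, smul_eq_mul]
  obtain ⟨r, μ, cc, hc1, hc2⟩ := kernel_descend
    (fun (i : Fin n) (a : Fin (c + b) × (Fin (N + 1) →₀ ℕ)) => D i ((P a.1).coeff a.2)) κ hrel
  let R : Fin r → Derivation ℤ K K := fun s => ∑ i, algebraMap ℂ K (cc s i) • (F i).1
  have hRext : ∀ s, Ext (∑ i, cc s i • D i) (R s) := by
    intro s a
    simp only [R]
    rw [der_sum_apply, der_sum_apply, map_sum]
    refine Finset.sum_congr rfl fun i _ => ?_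
    rw [Derivation.smul_apply, hD i, Derivation.smul_apply, smul_eq_mul, smul_eq_mul, map_mul]
  have hR0 : ∀ s l m, (∑ i, cc s i • D i) ((P l).coeff m) = 0 := by
    intro s l m
    have h1 := hc1 s (l, m)
    simp only at h1
    rw [der_sum_apply]
    simp only [Derivation.smul_apply, smul_eq_mul]
    rw [h1]
  have hE2R : E2 = ∑ s, μ s • R s := by
    rw [← hF]
    simp only [R, Finset.smul_sum, smul_smul]
    rw [Finset.sum_comm]
    refine Finset.sum_congr rfl fun i _ => ?_
    rw [← Finset.sum_smul, ← hc2 i]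
  have hRT : ∀ s, (fun i => R s (x i)) ∈ T := by
    intro s
    refine Submodule.subset_span ⟨0, R s, by omega, logGood_of_ext hz x H (hRext s) (fun m =>
      ⟨0, fun μ => ?_⟩), ?_, rfl⟩
    · rw [← hPH m, hR0, zero_mul]
    · funext l
      rw [jac_der hGx, coefEval_congr (ψ := fun _ => 0) (S := ∅) (fun m => ?_) (hcoef0 _)
        (fun _ _ => rfl)]
      · simp
      · rw [hRext s, ← hPG l, hR0, map_zero]
  have hE2T : (fun i => E2 (x i)) ∈ T := by
    have h1 : (fun i => E2 (x i)) = ∑ s, μ s • (fun i => R s (x i)) := by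
      funext i
      rw [hE2R, der_sum_apply, Finset.sum_apply]
      rfl
    rw [h1]
    exact T.sum_mem fun s _ => T.smul_mem _ (hRT s)
  have hfinal : τ = (fun i => E2 (x i)) + ∑ l, (fun i => V l (x i)) +
      ∑ m, ρ m • (fun i => SF m (x i)) := by
    funext i
    rw [Pi.add_apply, Pi.add_apply, Finset.sum_apply, Finset.sum_apply]
    have h1 : E2 (x i) = τ i - (∑ m, ρ m * SF m (x i)) - ∑ l, V l (x i) := by
      change (E1 - ∑ l, V l) (x i) = _
      rw [Derivation.sub_apply, der_sum_apply Finset.univ V]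
      change (E0 - ∑ m, ρ m • SF m) (x i) - _ = _
      rw [Derivation.sub_apply, hE0x, der_sum_apply Finset.univ fun m => ρ m • SF m]
      rfl
    rw [h1, sub_add_cancel]
    simp only [Pi.smul_apply, smul_eq_mul]
    rw [sub_add_cancel]
  rw [hfinal]
  exact T.add_mem (T.add_mem hE2T (T.sum_mem fun l _ => hV3 l))
    (T.sum_mem fun m _ => T.smul_mem _ (hSFT m))

end Pool.Agent.H17LG
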