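import Pool.Agent.H17LG.Variety
import Pool.Agent.H17LG.Main
import Pool.Agent.H23.Bridge

/-!
# Comparison of two forms of the definitions
-/

open MvPolynomial

noncomputable section

namespace Pool.Agent.H17LG

section

variable {K : Type} [Field K] [Algebra ℂ K] {k : ℕ}

/-- the same form -/
def toForm (ω : H23.RatForm K k) : H23.Fano.Form K k := ω

lemma toForm_smul (g : K) (ω : H23.RatForm K k) : toForm (g • ω) = g • toForm ω := rfl

lemma toForm_zero : toForm (0 : H23.RatForm K k) = 0 := rfl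

lemma toForm_injective : Function.Injective (toForm : H23.RatForm K k → H23.Fano.Form K k) :=
  fun _ _ h => h

lemma toForm_mem {E : H23.PrimeDivisorOver K k} {ω : H23.RatForm K k}
    (h : ω ∈ H23.regularForms k E.localRing) :
    toForm ω ∈ H23.Fano.regularForms k (H23.toFano E).localRing :=
  (H23.fano_mem_regularForms (A := E.localRing) rfl ω).2 h

lemma poleAtMost_zero {E : H23.PrimeDivisorOver K k} {m : ℕ} {f : K} {ω : H23.RatForm K k}
    (h : H17GT.RegularAlong E m f ω) :
    Variety.PoleAtMost 0 (H23.toFano E) m f (toForm ω) := by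
  obtain ⟨g, η, h1, h2, h3⟩ := h
  refine ⟨g, toForm η, toForm_mem h1, ?_, ?_⟩
  · rw [h2, toForm_smul]
  · rw [Nat.cast_zero, add_zero]
    exact h3

lemma poleAtMost_self {E : H23.PrimeDivisorOver K k} {m : ℕ} {f : K} {ω : H23.RatForm K k}
    (h : LogRegularAlong E m f ω) : Variety.PoleAtMost m (H23.toFano E) m f (toForm ω) := by
  obtain ⟨g, η, h1, h2, h3⟩ := h
  refine ⟨g, toForm η, toForm_mem h1, ?_, h3⟩
  rw [h2, toForm_smul]

lemma isLogGeneralType_translate {B : H23.PrimeDivisorOver K k → Prop}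
    {B' : H23.Fano.PrimeDivisorOver K k → Prop} (hB : ∀ E, B E ↔ B' (H23.toFano E))
    (h : IsLogGeneralType B) : Variety.IsLogGeneralType B' := by
  obtain ⟨m, hm, ω, hω, r, f, hf, h1, h2⟩ := h
  refine ⟨m, hm, toForm ω, fun h0 => hω (toForm_injective (h0.trans toForm_zero.symm)), r, f, hf,
    fun i E => ?_, h2⟩
  obtain ⟨E, rfl⟩ : ∃ E', H23.toFano E' = E := ⟨H23.ofFano E, H23.toFano_ofFano E⟩
  refine ⟨fun hE => ?_, fun hE => ?_⟩
  · exact poleAtMost_zero ((h1 i E).1 fun h4 => hE ((hB E).1 h4))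
  · exact poleAtMost_self ((h1 i E).2 ((hB E).2 hE))

end

lemma allLogGeneralType_translate {N c b : ℕ} {G : Fin c → MvPolynomial (Fin (N + 1)) ℂ}
    {H : Fin b → MvPolynomial (Fin (N + 1)) ℂ} {k₀ : ℕ} (h : AllLogGeneralType G H k₀) :
    Variety.AllLogGeneralType G H k₀ := by
  intro P hP h1 h2 h3 k hk hz
  exact isLogGeneralType_translate (K := H17GT.functionField P) (B := OnBoundary P H (k := k))
    (fun E => Iff.rfl) (h P h1 h2 h3 k hk hz)

end Pool.Agent.H17LG
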